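import Pool.Agent.SBW.Basic
import Pool.Agent.SBW.CN

set_option autoImplicit false

/-!
# MP_b5172a_pr: cone points of self-avoiding walks, basic facts

Walks are lists of steps as in `Pool.Agent.SBW`.
-/

open scoped Classical

noncomputable section

namespace Pool.Agent.SawCone

open Pool.Agent.SBW

variable {D : ℕ}

/-- sum of the first two coordinates at time `k` -/
def F1 (w : Wk D) (k : ℕ) : ℤ := pos w k 0 + pos w k 1
/-- difference of the first two coordinates at time `k` -/
def F2 (w : Wk D) (k : ℕ) : ℤ := pos w k 0 - pos w k 1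

@[simp] theorem F1_zero (w : Wk D) : F1 w 0 = 0 := by simp [F1]
@[simp] theorem F2_zero (w : Wk D) : F2 w 0 = 0 := by simp [F2]

theorem F1_app_left (u v : Wk D) {k : ℕ} (h : k ≤ u.length) : F1 (u ++ v) k = F1 u k := by
  simp only [F1, pos_append_left u v h]
theorem F2_app_left (u v : Wk D) {k : ℕ} (h : k ≤ u.length) : F2 (u ++ v) k = F2 u k := by
  simp only [F2, pos_append_left u v h]
theorem F1_app_right (u v : Wk D) (k : ℕ) :
    F1 (u ++ v) (u.length + k) = F1 u u.length + F1 v k := by
  simp only [F1, pos_append_right]; ring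
theorem F2_app_right (u v : Wk D) (k : ℕ) :
    F2 (u ++ v) (u.length + k) = F2 u u.length + F2 v k := by
  simp only [F2, pos_append_right]; ring

theorem F1_sw (w : Wk D) (k : ℕ) : F1 (w.map swS) k = F1 w k := by
  simp only [F1, pos_map_sw]
  rw [Equiv.swap_apply_left, Equiv.swap_apply_right]; ring
theorem F2_sw (w : Wk D) (k : ℕ) : F2 (w.map swS) k = - F2 w k := by
  simp only [F2, pos_map_sw]
  rw [Equiv.swap_apply_left, Equiv.swap_apply_right]; ring

theorem F1_take (w : Wk D) {n k : ℕ} (h : k ≤ n) : F1 (w.take n) k = F1 w k := by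
  simp only [F1, pos_take_of_le w h]
theorem F2_take (w : Wk D) {n k : ℕ} (h : k ≤ n) : F2 (w.take n) k = F2 w k := by
  simp only [F2, pos_take_of_le w h]
theorem F1_drop (w : Wk D) (n k : ℕ) : F1 (w.drop n) k = F1 w (n + k) - F1 w n := by
  simp only [F1, pos_drop]; ring
theorem F2_drop (w : Wk D) (n k : ℕ) : F2 (w.drop n) k = F2 w (n + k) - F2 w n := by
  simp only [F2, pos_drop]; ring

theorem saw_sw {w : Wk D} (h : Saw w) : Saw (w.map swS) := by
  intro i hi k hk hp
  rw [List.length_map] at hi hk
  refine h i hi k hk ?_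
  intro j
  have := hp (Equiv.swap 0 1 j)
  rw [pos_map_sw, pos_map_sw, Equiv.swap_apply_self] at this
  exact this

/-- two self-avoiding walks separated by `F1` (strict in the past) -/
theorem saw_append_F1 {u v : Wk D} (hu : Saw u) (hv : Saw v)
    (h1 : ∀ k < u.length, F1 u k < F1 u u.length) (h2 : ∀ k ≤ v.length, 0 ≤ F1 v k) :
    Saw (u ++ v) := by
  have key : ∀ i ≤ (u ++ v).length, ∀ k ≤ (u ++ v).length, i ≤ k →
      (∀ j, pos (u ++ v) i j = pos (u ++ v) k j) → i = k := by
    intro i hi k hk hik hp
    rw [List.length_append] at hi hk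
    rcases Nat.lt_or_ge k u.length with hku | hku
    · refine hu i (by omega) k (by omega) ?_
      intro j
      have := hp j
      rwa [pos_append_left _ _ (by omega), pos_append_left _ _ (by omega)] at this
    · obtain ⟨k', rfl⟩ := Nat.exists_eq_add_of_le hku
      rcases Nat.lt_or_ge i u.length with hiu | hiu
      · exfalso
        have e : F1 (u ++ v) i = F1 (u ++ v) (u.length + k') := by
          simp only [F1, hp]
        rw [F1_app_left _ _ hiu.le, F1_app_right] at e
        have a := h1 i hiu
        have b := h2 k' (by omega)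
        omega
      · obtain ⟨i', rfl⟩ := Nat.exists_eq_add_of_le hiu
        have : i' = k' := by
          refine hv i' (by omega) k' (by omega) ?_
          intro j
          have := hp j
          rw [pos_append_right, pos_append_right] at this
          linarith
        omega
  intro i hi k hk hp
  rcases Nat.le_total i k with h | h
  · exact key i hi k hk h hp
  · exact (key k hk i hi h (fun j => (hp j).symm)).symm

/-- diagonal bridge -/
def Bd (w : Wk D) : Prop :=
  Saw w ∧ ∀ k < w.length, 0 ≤ F1 w k ∧ F1 w k < F1 w w.length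

/-- strict cone piece -/
def Cs (w : Wk D) : Prop :=
  Bd w ∧ ∀ k < w.length, 0 ≤ F2 w k ∧ F2 w k < F2 w w.length

/-- cone walk -/
def Cc (w : Wk D) : Prop :=
  Saw w ∧ ∀ k ≤ w.length, (0 ≤ F1 w k ∧ F1 w k ≤ F1 w w.length) ∧
    0 ≤ F2 w k ∧ F2 w k ≤ F2 w w.length

theorem Bd.end_nonneg {w : Wk D} (h : Bd w) : 0 ≤ F1 w w.length := by
  rcases Nat.eq_zero_or_pos w.length with h0 | h0
  · rw [h0]; simp
  · have := (h.2 0 h0).2
    rw [F1_zero] at this
    exact this.le

theorem Bd.nonneg {w : Wk D} (h : Bd w) {k : ℕ} (hk : k ≤ w.length) : 0 ≤ F1 w k := by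
  rcases Nat.lt_or_ge k w.length with h1 | h1
  · exact (h.2 k h1).1
  · have : k = w.length := by omega
    rw [this]; exact h.end_nonneg

theorem Cs.nonneg {w : Wk D} (h : Cs w) {k : ℕ} (hk : k ≤ w.length) : 0 ≤ F2 w k := by
  rcases Nat.lt_or_ge k w.length with h1 | h1
  · exact (h.2 k h1).1
  · have : k = w.length := by omega
    rw [this]
    rcases Nat.eq_zero_or_pos w.length with h0 | h0
    · rw [h0]; simp
    · have := (h.2 0 h0).2
      rw [F2_zero] at this
      exact this.le

theorem bd_nil : Bd ([] : Wk D) := ⟨CN_.saw_nil, fun k hk => by simp at hk⟩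

theorem bd_append {u v : Wk D} (hu : Bd u) (hv : Bd v) : Bd (u ++ v) := by
  refine ⟨saw_append_F1 hu.1 hv.1 (fun k hk => (hu.2 k hk).2) (fun k hk => hv.nonneg hk), ?_⟩
  intro k hk
  rw [List.length_append] at hk ⊢
  rw [F1_app_right]
  have hv0 := hv.end_nonneg
  rcases Nat.lt_or_ge k u.length with h | h
  · rw [F1_app_left _ _ h.le]
    have := hu.2 k h
    constructor <;> linarith [this.1, this.2]
  · obtain ⟨k', rfl⟩ := Nat.exists_eq_add_of_le h
    rw [F1_app_right]
    have := hv.2 k' (by omega)
    have hu0 := hu.end_nonneg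
    constructor <;> linarith [this.1, this.2]

theorem bd_sw {w : Wk D} (h : Bd w) : Bd (w.map swS) := by
  refine ⟨saw_sw h.1, ?_⟩
  intro k hk
  rw [List.length_map] at hk ⊢
  rw [F1_sw, F1_sw]
  exact h.2 k hk

/-- alternate concatenation: every second piece is reflected -/
def zz : List (Wk D) → Wk D
  | [] => []
  | (p :: l) => p ++ (zz l).map swS

theorem bd_zz (l : List (Wk D)) (h : ∀ p ∈ l, Bd p) : Bd (zz l) := by
  induction l with
  | nil => exact bd_nil
  | cons p l ih =>
    simp only [zz]
    exact bd_append (h p (by simp)) (bd_sw (ih (fun q hq => h q (by simp [hq]))))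

theorem length_zz (l : List (Wk D)) : (zz l).length = (l.map List.length).sum := by
  induction l with
  | nil => rfl
  | cons p l ih => simp [zz, ih]

/-- local maximum of `F2` on the window of size `s` -/
def Mx (w : Wk D) (s T : ℕ) : Prop :=
  s ≤ T ∧ T + s ≤ w.length ∧ (∀ t, T ≤ t + s → t < T → F2 w t < F2 w T) ∧
    ∀ t, T < t → t ≤ T + s → F2 w t ≤ F2 w T

theorem Mx.sep {w : Wk D} {s T T' : ℕ} (h : Mx w s T) (h' : Mx w s T') (hlt : T < T') :
    T + s < T' := by
  by_contra hc
  have a := h.2.2.2 T' hlt (by omega)
  have b := h'.2.2.1 T (by omega) hlt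
  omega

theorem Mx.shift {v : Wk D} {s T : ℕ} (u : Wk D) (h : Mx v s T) :
    Mx (u ++ v) s (u.length + T) := by
  refine ⟨by have := h.1; omega, ?_, ?_, ?_⟩
  · rw [List.length_append]
    have := h.2.1
    omega
  · intro t h1 h2
    have hs := h.1
    obtain ⟨t', rfl⟩ : ∃ t', t = u.length + t' := ⟨t - u.length, by omega⟩
    rw [F2_app_right, F2_app_right]
    have := h.2.2.1 t' (by omega) (by omega)
    omega
  · intro t h1 h2
    obtain ⟨t', rfl⟩ : ∃ t', t = u.length + t' := ⟨t - u.length, by omega⟩
    rw [F2_app_right, F2_app_right]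
    have := h.2.2.2 t' (by omega) (by omega)
    omega

/-- the partial lengths -/
def JJ : List (Wk D) → Finset ℕ
  | [] => ∅
  | (p :: l) => insert p.length ((JJ l).image (fun x => p.length + x))

theorem JJ_pos (l : List (Wk D)) (h : ∀ p ∈ l, 0 < p.length) : ∀ x ∈ JJ l, 0 < x := by
  induction l with
  | nil => simp [JJ]
  | cons p l ih =>
    intro x hx
    have hp := h p (by simp)
    simp only [JJ, Finset.mem_insert, Finset.mem_image] at hx
    rcases hx with rfl | ⟨y, _, rfl⟩ <;> omega

/-- the junctions are candidates -/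
theorem JJ_cand (s : ℕ) (l : List (Wk D)) (h : ∀ p ∈ l, Cs p ∧ s ≤ p.length) :
    ∀ T ∈ JJ l, T = (zz l).length ∨ Mx (zz l) s T ∨ Mx ((zz l).map swS) s T := by
  induction l with
  | nil => simp [JJ]
  | cons p l ih =>
    have hl : ∀ q ∈ l, Cs q ∧ s ≤ q.length := fun q hq => h q (by simp [hq])
    have ih := ih hl
    obtain ⟨hp, hps⟩ := h p (by simp)
    intro T hT
    simp only [JJ, Finset.mem_insert, Finset.mem_image] at hT
    rcases hT with rfl | ⟨T', hT', rfl⟩
    · cases l with
      | nil => left; simp [zz]
      | cons q l' =>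
        right; left
        obtain ⟨hq, hqs⟩ := hl q (by simp)
        refine ⟨hps, ?_, ?_, ?_⟩
        · simp only [zz, List.length_append, List.length_map]
          omega
        · intro t _ h2
          simp only [zz]
          rw [F2_app_left _ _ h2.le, F2_app_left _ _ le_rfl]
          exact (hp.2 t h2).2
        · intro t h1 h2
          obtain ⟨t', rfl⟩ : ∃ t', t = p.length + t' := ⟨t - p.length, by omega⟩
          simp only [zz]
          rw [F2_app_right, F2_app_left _ _ le_rfl, F2_sw, F2_app_left _ _ (by omega)]
          have := hq.nonneg (k := t') (by omega)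
          omega
    · have e : (zz (p :: l)).map swS = p.map swS ++ zz l := by
        simp only [zz, List.map_append, map_sw_sw]
      rcases ih T' hT' with h1 | h1 | h1
      · left
        simp [zz, h1]
      · right; right
        rw [e]
        have := h1.shift (p.map swS)
        rwa [List.length_map] at this
      · right; left
        exact h1.shift p

theorem JJ_inj (l : List (Wk D)) : ∀ l' : List (Wk D), (∀ p ∈ l, 0 < p.length) →
    (∀ p ∈ l', 0 < p.length) → zz l = zz l' → JJ l = JJ l' → l = l' := by
  induction l with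
  | nil =>
    intro l' _ _ _ h
    cases l' with
    | nil => rfl
    | cons q l' =>
      exfalso
      have : q.length ∈ JJ (q :: l') := by simp [JJ]
      rw [← h] at this
      simp [JJ] at this
  | cons p l ih =>
    intro l' hl hl' hz hJ
    cases l' with
    | nil =>
      exfalso
      have : p.length ∈ JJ (p :: l) := by simp [JJ]
      rw [hJ] at this
      simp [JJ] at this
    | cons q l' =>
      have hl1 : ∀ r ∈ l, 0 < r.length := fun r hr => hl r (by simp [hr])
      have hl2 : ∀ r ∈ l', 0 < r.length := fun r hr => hl' r (by simp [hr])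
      have hle : ∀ x ∈ JJ (p :: l), p.length ≤ x := by
        intro x hx
        simp only [JJ, Finset.mem_insert, Finset.mem_image] at hx
        rcases hx with rfl | ⟨y, _, rfl⟩ <;> omega
      have hle' : ∀ x ∈ JJ (q :: l'), q.length ≤ x := by
        intro x hx
        simp only [JJ, Finset.mem_insert, Finset.mem_image] at hx
        rcases hx with rfl | ⟨y, _, rfl⟩ <;> omega
      have e : p.length = q.length := by
        have h1 := hle q.length (by rw [hJ]; simp [JJ])
        have h2 := hle' p.length (by rw [← hJ]; simp [JJ])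
        omega
      simp only [zz] at hz
      obtain ⟨e1, e2⟩ := List.append_inj hz e
      have e3 : zz l = zz l' := by
        have := congrArg (List.map swS) e2
        rwa [map_sw_sw, map_sw_sw] at this
      have e4 : JJ l = JJ l' := by
        ext x
        have key : ∀ (r : Wk D) (m : List (Wk D)), (∀ a ∈ m, 0 < a.length) →
            (x ∈ JJ m ↔ (0 < x ∧ r.length + x ∈ JJ (r :: m))) := by
          intro r m hm
          constructor
          · intro hx
            refine ⟨JJ_pos m hm x hx, ?_⟩
            simp only [JJ, Finset.mem_insert, Finset.mem_image]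
            exact Or.inr ⟨x, hx, rfl⟩
          · rintro ⟨h0, hx⟩
            simp only [JJ, Finset.mem_insert, Finset.mem_image] at hx
            rcases hx with hx | ⟨y, hy, hxy⟩
            · omega
            · have : y = x := by omega
              rwa [this] at hy
        rw [key p l hl1, key q l' hl2, hJ, e]
      rw [e1, ih l' hl1 hl2 e3 e4]

end Pool.Agent.SawCone
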