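import Pool.Agent.SawCone.Basic
import Pool.Agent.SBW.SMUL

set_option autoImplicit false

/-!
# MP_b5172a_pr: cone walks per dyadic block of lengths
-/

open scoped Classical

noncomputable section

namespace Pool.Agent.SawCone

open Pool.Agent.SBW

/-- diagonal bridges with `n` steps -/
def BdF (D n : ℕ) : Finset (Wk D) := (WL D n).filter Bd
/-- strict cone pieces with `n` steps -/
def CsF (D n : ℕ) : Finset (Wk D) := (WL D n).filter Cs
/-- cone walks with `n` steps -/
def CcF (D n : ℕ) : Finset (Wk D) := (WL D n).filter Cc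

theorem mem_BdF {D n : ℕ} {w : Wk D} : w ∈ BdF D n ↔ w.length = n ∧ Bd w := by
  simp [BdF, mem_WL]
theorem mem_CsF {D n : ℕ} {w : Wk D} : w ∈ CsF D n ↔ w.length = n ∧ Cs w := by
  simp [CsF, mem_WL]
theorem mem_CcF {D n : ℕ} {w : Wk D} : w ∈ CcF D n ↔ w.length = n ∧ Cc w := by
  simp [CcF, mem_WL]

/-- the connective constant -/
def mu (D : ℕ) : ℝ := ⨅ n : ℕ, ((SwF D (n + 1)).card : ℝ) ^ (1 / ((n : ℝ) + 1))

theorem one_le_card (D n : ℕ) : 1 ≤ (SwF D n).card := by
  apply Finset.card_pos.2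
  exact ⟨List.replicate n ((0, true) : St D),
    mem_SwF.2 ⟨List.length_replicate, (SMUL_.br_repl D n).1⟩⟩

theorem bdd (D : ℕ) : BddBelow (Set.range
    fun n : ℕ => ((SwF D (n + 1)).card : ℝ) ^ (1 / ((n : ℝ) + 1))) := by
  refine ⟨0, ?_⟩
  rintro _ ⟨n, rfl⟩
  positivity

theorem one_le_mu (D : ℕ) : 1 ≤ mu D := by
  apply le_ciInf
  intro n
  apply Real.one_le_rpow
  · exact_mod_cast one_le_card D (n + 1)
  · positivity

theorem mu_pos (D : ℕ) : 0 < mu D := lt_of_lt_of_le one_pos (one_le_mu D)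

theorem mu_pow_le (D n : ℕ) : mu D ^ n ≤ ((SwF D n).card : ℝ) := by
  rcases Nat.eq_zero_or_pos n with h | h
  · subst h
    simp only [pow_zero]
    exact_mod_cast one_le_card D 0
  · obtain ⟨m, rfl⟩ : ∃ m, n = m + 1 := ⟨n - 1, by omega⟩
    have h1 : mu D ≤ ((SwF D (m + 1)).card : ℝ) ^ (1 / ((m : ℝ) + 1)) := ciInf_le (bdd D) m
    calc mu D ^ (m + 1) ≤ (((SwF D (m + 1)).card : ℝ) ^ (1 / ((m : ℝ) + 1))) ^ (m + 1) :=
          pow_le_pow_left₀ (mu_pos D).le h1 _
      _ = ((SwF D (m + 1)).card : ℝ) := by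
          rw [← Real.rpow_natCast, ← Real.rpow_mul (by positivity)]
          push_cast
          rw [one_div_mul_cancel (by positivity), Real.rpow_one]

theorem card_BdF_add (D m n : ℕ) :
    (BdF D m).card * (BdF D n).card ≤ (BdF D (m + n)).card := by
  rw [← Finset.card_product]
  apply Finset.card_le_card_of_injOn (fun p => p.1 ++ p.2)
  · rintro ⟨u, v⟩ h
    have h := Finset.mem_product.1 (Finset.mem_coe.1 h)
    rw [mem_BdF, mem_BdF] at h
    apply Finset.mem_coe.2
    rw [mem_BdF]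
    exact ⟨by simp only [List.length_append, h.1.1, h.2.1], bd_append h.1.2 h.2.2⟩
  · rintro ⟨u, v⟩ h1 ⟨u', v'⟩ h2 he
    simp only [Finset.coe_product, Set.mem_prod, Finset.mem_coe, mem_BdF] at h1 h2
    have hl : u.length = u'.length := by rw [h1.1.1, h2.1.1]
    obtain ⟨a, b⟩ := List.append_inj he hl
    simp only at a b
    rw [a, b]

theorem card_BdF_pow (D m k : ℕ) : (BdF D m).card ^ k ≤ (BdF D (m * k)).card := by
  induction k with
  | zero =>
    simp only [pow_zero, mul_zero]
    exact Finset.card_pos.2 ⟨[], mem_BdF.2 ⟨rfl, bd_nil⟩⟩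
  | succ k ih =>
    rw [pow_succ, mul_add, mul_one]
    exact (Nat.mul_le_mul_right _ ih).trans (card_BdF_add D (m * k) m)

theorem BdF_sub (D n : ℕ) : BdF D n ⊆ SwF D n := by
  intro w hw
  have := mem_BdF.1 hw
  exact mem_SwF.2 ⟨this.1, this.2.1⟩

/-- diagonal bridges have weight at most one -/
theorem card_BdF_le (D n : ℕ) : ((BdF D n).card : ℝ) ≤ mu D ^ n := by
  rcases Nat.eq_zero_or_pos n with h | h
  · subst h
    have h1 : (BdF D 0).card ≤ 1 :=
      (Finset.card_le_card (BdF_sub D 0)).trans (by rw [CN_.card_zero])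
    simp only [pow_zero]
    exact_mod_cast h1
  · have hn : (0 : ℝ) < n := by exact_mod_cast h
    have key : ((BdF D n).card : ℝ) ^ (1 / (n : ℝ)) ≤ mu D := by
      apply le_ciInf
      intro k
      have h1 : ((BdF D n).card : ℝ) ^ (k + 1) ≤ ((SwF D (k + 1)).card : ℝ) ^ n := by
        have : (BdF D n).card ^ (k + 1) ≤ (SwF D (k + 1)).card ^ n :=
          (card_BdF_pow D n (k + 1)).trans ((Finset.card_le_card (BdF_sub D _)).trans
            (CN_.card_mul D (k + 1) n))
        exact_mod_cast this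
      have hk : (0 : ℝ) < (k : ℝ) + 1 := by positivity
      have h2 := Real.rpow_le_rpow (by positivity) h1
        (by positivity : 0 ≤ 1 / ((n : ℝ) * ((k : ℝ) + 1)))
      rw [← Real.rpow_natCast, ← Real.rpow_natCast, ← Real.rpow_mul (by positivity),
        ← Real.rpow_mul (by positivity)] at h2
      have e1 : ((k + 1 : ℕ) : ℝ) * (1 / ((n : ℝ) * ((k : ℝ) + 1))) = 1 / (n : ℝ) := by
        push_cast
        field_simp
      have e2 : (n : ℝ) * (1 / ((n : ℝ) * ((k : ℝ) + 1))) = 1 / ((k : ℝ) + 1) := by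
        field_simp
      rwa [e1, e2] at h2
    calc ((BdF D n).card : ℝ) = (((BdF D n).card : ℝ) ^ (1 / (n : ℝ))) ^ n := by
          rw [← Real.rpow_natCast, ← Real.rpow_mul (by positivity),
            one_div_mul_cancel hn.ne', Real.rpow_one]
      _ ≤ mu D ^ n := pow_le_pow_left₀ (by positivity) key _

/-- exponential comparison -/
theorem le_of_pow_le (S c A B : ℝ) (hc : 0 < c)
    (h : ∀ N : ℕ, S ^ N ≤ (A * N + B) * c ^ N) : S ≤ c := by
  by_contra hlt
  push Not at hlt
  have hr : 1 < S / c := by rwa [one_lt_div hc]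
  have t1 : Filter.Tendsto (fun n : ℕ => (n : ℝ) ^ 1 / (S / c) ^ n) Filter.atTop (nhds 0) :=
    tendsto_pow_const_div_const_pow_of_one_lt 1 hr
  have t2 : Filter.Tendsto (fun n : ℕ => (n : ℝ) ^ 0 / (S / c) ^ n) Filter.atTop (nhds 0) :=
    tendsto_pow_const_div_const_pow_of_one_lt 0 hr
  have t3 : Filter.Tendsto (fun n : ℕ => A * ((n : ℝ) ^ 1 / (S / c) ^ n) +
      B * ((n : ℝ) ^ 0 / (S / c) ^ n)) Filter.atTop (nhds 0) := by
    have := (t1.const_mul A).add (t2.const_mul B)
    simpa using this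
  obtain ⟨N, hN⟩ := (t3.eventually (gt_mem_nhds (one_pos : (0 : ℝ) < 1))).exists
  have hSc : 0 < (S / c) ^ N := pow_pos (by positivity) N
  have h1 := h N
  have h2 : (S / c) ^ N ≤ A * N + B := by
    rw [div_pow, div_le_iff₀ (pow_pos hc N)]
    exact h1
  have h3 : A * ((N : ℝ) ^ 1 / (S / c) ^ N) + B * ((N : ℝ) ^ 0 / (S / c) ^ N) =
      (A * N + B) / (S / c) ^ N := by
    field_simp
  rw [h3, div_lt_one hSc] at hN
  linarith

/-- the pieces with length in `[s, 2s)` -/
def PF (D s : ℕ) : Finset (Wk D) := (Finset.Ico s (2 * s)).biUnion (CsF D)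

theorem mem_PF {D s : ℕ} {w : Wk D} : w ∈ PF D s ↔ (s ≤ w.length ∧ w.length < 2 * s) ∧ Cs w := by
  simp only [PF, Finset.mem_biUnion, Finset.mem_Ico, mem_CsF]
  constructor
  · rintro ⟨n, hn, rfl, h⟩
    exact ⟨hn, h⟩
  · rintro ⟨h1, h2⟩
    exact ⟨w.length, h1, rfl, h2⟩

theorem sum_PF (D s : ℕ) (x : ℝ) :
    ∑ p ∈ PF D s, x ^ p.length = ∑ m ∈ Finset.Ico s (2 * s), ((CsF D m).card : ℝ) * x ^ m := by
  unfold PF
  rw [Finset.sum_biUnion]
  · refine Finset.sum_congr rfl fun m _ => ?_
    rw [Finset.sum_congr rfl (g := fun _ => x ^ m)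
      fun w hw => by rw [(mem_CsF.1 hw).1]]
    rw [Finset.sum_const, nsmul_eq_mul]
  · intro m _ m' _ hne
    apply Finset.disjoint_left.2
    intro w h1 h2
    exact hne ((mem_CsF.1 h1).1.symm.trans (mem_CsF.1 h2).1)

/-- the candidates -/
def MxF {D : ℕ} (w : Wk D) (s : ℕ) : Finset ℕ := (Finset.range (w.length + 1)).filter (Mx w s)

theorem card_MxF {D : ℕ} (w : Wk D) (s N : ℕ) (hs : 0 < s) (hw : w.length ≤ 2 * s * N) :
    (MxF w s).card ≤ 2 * N := by
  have : (MxF w s).card ≤ (Finset.range (2 * N)).card := by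
    apply Finset.card_le_card_of_injOn (fun T => T / s)
    · intro T hT
      have hT := (Finset.mem_filter.1 (Finset.mem_coe.1 hT)).2
      apply Finset.mem_coe.2
      rw [Finset.mem_range, Nat.div_lt_iff_lt_mul hs]
      have := hT.2.1
      nlinarith
    · intro T hT T' hT' he
      have hT := (Finset.mem_filter.1 (Finset.mem_coe.1 hT)).2
      have hT' := (Finset.mem_filter.1 (Finset.mem_coe.1 hT')).2
      have key : ∀ a b : ℕ, Mx w s a → Mx w s b → a / s = b / s → ¬ a < b := by
        intro a b ha hb hab hlt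
        have h1 := ha.sep hb hlt
        have h2 : (a + s) / s ≤ b / s := Nat.div_le_div_right h1.le
        rw [Nat.add_div_right _ hs] at h2
        omega
      have h1 := key T T' hT hT' he
      have h2 := key T' T hT' hT he.symm
      omega
  rwa [Finset.card_range] at this

/-- the tuples of pieces -/
def AF (D s N : ℕ) : Finset (Fin N → Wk D) := Fintype.piFinset (fun _ : Fin N => PF D s)

/-- concatenation of a tuple -/
def zt {D N : ℕ} (f : Fin N → Wk D) : Wk D := zz (List.ofFn f)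

theorem length_zt {D N : ℕ} (f : Fin N → Wk D) : (zt f).length = ∑ i, (f i).length := by
  unfold zt
  rw [length_zz, List.map_ofFn, List.sum_ofFn]
  rfl

theorem length_zt_le {D s N : ℕ} {f : Fin N → Wk D} (hf : f ∈ AF D s N) :
    (zt f).length ≤ 2 * s * N := by
  rw [length_zt]
  calc ∑ i, (f i).length ≤ ∑ _i : Fin N, 2 * s :=
        Finset.sum_le_sum fun i _ => (mem_PF.1 (Fintype.mem_piFinset.1 hf i)).1.2.le
    _ = 2 * s * N := by rw [Finset.sum_const, Finset.card_univ, Fintype.card_fin, smul_eq_mul]; ring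

theorem fibre (D s N : ℕ) (hs : 0 < s) (W : Wk D) :
    ((AF D s N).filter (fun f => zt f = W)).card ≤ 2 * 16 ^ N := by
  rcases Nat.lt_or_ge (2 * s * N) W.length with hW | hW
  · rw [Finset.filter_false_of_mem]
    · simp
    · intro f hf h
      have := length_zt_le hf
      rw [h] at this
      omega
  · set C : Finset ℕ := insert W.length (MxF W s ∪ MxF (W.map swS) s) with hC
    have hCc : C.card ≤ 4 * N + 1 := by
      have a := card_MxF W s N hs hW
      have b := card_MxF (W.map swS) s N hs (by rwa [List.length_map])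
      have c := Finset.card_union_le (MxF W s) (MxF (W.map swS) s)
      have d := Finset.card_insert_le W.length (MxF W s ∪ MxF (W.map swS) s)
      rw [hC]
      omega
    have h1 : ((AF D s N).filter (fun f => zt f = W)).card ≤ C.powerset.card := by
      apply Finset.card_le_card_of_injOn (fun f => JJ (List.ofFn f))
      · intro f hf
        obtain ⟨hf, hz⟩ := Finset.mem_filter.1 (Finset.mem_coe.1 hf)
        have hf' := Fintype.mem_piFinset.1 hf
        apply Finset.mem_coe.2
        rw [Finset.mem_powerset]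
        intro T hT
        have h := JJ_cand s (List.ofFn f) (by
          intro p hp
          obtain ⟨i, rfl⟩ := (List.mem_ofFn' f p).1 hp
          exact ⟨(mem_PF.1 (hf' i)).2, (mem_PF.1 (hf' i)).1.1⟩) T hT
        change T = (zt f).length ∨ Mx (zt f) s T ∨ Mx ((zt f).map swS) s T at h
        rw [hz] at h
        rw [hC, Finset.mem_insert, Finset.mem_union, MxF, MxF, Finset.mem_filter,
          Finset.mem_filter, Finset.mem_range, Finset.mem_range]
        rcases h with h | h | h
        · exact Or.inl h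
        · have := h.2.1
          exact Or.inr (Or.inl ⟨by omega, h⟩)
        · have := h.2.1
          exact Or.inr (Or.inr ⟨by omega, h⟩)
      · intro f hf g hg he
        obtain ⟨hf, hz⟩ := Finset.mem_filter.1 (Finset.mem_coe.1 hf)
        obtain ⟨hg, hz'⟩ := Finset.mem_filter.1 (Finset.mem_coe.1 hg)
        have key : ∀ f ∈ AF D s N, ∀ p ∈ List.ofFn f, 0 < p.length := by
          intro f hf p hp
          obtain ⟨i, rfl⟩ := (List.mem_ofFn' f p).1 hp
          have := (mem_PF.1 (Fintype.mem_piFinset.1 hf i)).1.1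
          omega
        have := JJ_inj (List.ofFn f) (List.ofFn g) (key f hf) (key g hg) (hz.trans hz'.symm) he
        exact List.ofFn_injective this
    rw [Finset.card_powerset] at h1
    calc _ ≤ 2 ^ C.card := h1
      _ ≤ 2 ^ (4 * N + 1) := Nat.pow_le_pow_right (by norm_num) hCc
      _ = 2 * 16 ^ N := by rw [pow_succ, pow_mul]; norm_num; ring

/-- a power of the block sum -/
theorem pow_le (D s N : ℕ) (hs : 0 < s) :
    (∑ m ∈ Finset.Ico s (2 * s), ((CsF D m).card : ℝ) * (mu D)⁻¹ ^ m) ^ N ≤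
      ((4 * (s : ℝ)) * N + 2) * 16 ^ N := by
  have hx : 0 < (mu D)⁻¹ := inv_pos.2 (mu_pos D)
  rw [← sum_PF]
  have e : (∑ p ∈ PF D s, (mu D)⁻¹ ^ p.length) ^ N =
      ∑ f ∈ AF D s N, (mu D)⁻¹ ^ (zt f).length := by
    have := Finset.prod_univ_sum (fun _ : Fin N => PF D s)
      (fun _ (p : Wk D) => (mu D)⁻¹ ^ p.length)
    rw [Finset.prod_const, Finset.card_univ, Fintype.card_fin] at this
    rw [this]
    refine Finset.sum_congr rfl fun f _ => ?_
    rw [Finset.prod_pow_eq_pow_sum, length_zt]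
  rw [e]
  set U : Finset (Wk D) := (Finset.range (2 * s * N + 1)).biUnion (BdF D) with hU
  have hmaps : ∀ f ∈ AF D s N, zt f ∈ U := by
    intro f hf
    have hf' := Fintype.mem_piFinset.1 hf
    rw [hU, Finset.mem_biUnion]
    refine ⟨(zt f).length, ?_, mem_BdF.2 ⟨rfl, ?_⟩⟩
    · rw [Finset.mem_range]
      have := length_zt_le hf
      omega
    · apply bd_zz
      intro p hp
      obtain ⟨i, rfl⟩ := (List.mem_ofFn' f p).1 hp
      exact (mem_PF.1 (hf' i)).2.1
  rw [← Finset.sum_fiberwise_of_maps_to hmaps]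
  calc ∑ W ∈ U, ∑ f ∈ (AF D s N).filter (fun f => zt f = W), (mu D)⁻¹ ^ (zt f).length
      ≤ ∑ W ∈ U, (2 * 16 ^ N) * (mu D)⁻¹ ^ W.length := by
        refine Finset.sum_le_sum fun W _ => ?_
        rw [Finset.sum_congr rfl (g := fun _ => (mu D)⁻¹ ^ W.length)
          fun f hf => by rw [(Finset.mem_filter.1 hf).2], Finset.sum_const, nsmul_eq_mul]
        apply mul_le_mul_of_nonneg_right _ (by positivity)
        exact_mod_cast fibre D s N hs W
    _ = (2 * 16 ^ N) * ∑ m ∈ Finset.range (2 * s * N + 1),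
          ((BdF D m).card : ℝ) * (mu D)⁻¹ ^ m := by
        rw [← Finset.mul_sum, hU, Finset.sum_biUnion]
        · congr 1
          refine Finset.sum_congr rfl fun m _ => ?_
          rw [Finset.sum_congr rfl (g := fun _ => (mu D)⁻¹ ^ m)
            fun w hw => by rw [(mem_BdF.1 hw).1], Finset.sum_const, nsmul_eq_mul]
        · intro m _ m' _ hne
          apply Finset.disjoint_left.2
          intro w h1 h2
          exact hne ((mem_BdF.1 h1).1.symm.trans (mem_BdF.1 h2).1)
    _ ≤ (2 * 16 ^ N) * ∑ _m ∈ Finset.range (2 * s * N + 1), (1 : ℝ) := by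
        apply mul_le_mul_of_nonneg_left _ (by positivity)
        refine Finset.sum_le_sum fun m _ => ?_
        have h1 := card_BdF_le D m
        rw [inv_pow, ← div_eq_mul_inv, div_le_one (pow_pos (mu_pos D) m)]
        exact h1
    _ = ((4 * (s : ℝ)) * N + 2) * 16 ^ N := by
        rw [Finset.sum_const, Finset.card_range, nsmul_eq_mul]
        push_cast
        ring

/-- strict cone pieces per dyadic block -/
theorem block_strict (D s : ℕ) (hs : 0 < s) :
    ∑ m ∈ Finset.Ico s (2 * s), ((CsF D m).card : ℝ) * (mu D)⁻¹ ^ m ≤ 16 := by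
  have hx : 0 < (mu D)⁻¹ := inv_pos.2 (mu_pos D)
  exact le_of_pow_le _ 16 (4 * (s : ℝ)) 2 (by norm_num) (fun N => pow_le D s N hs)

/-- adding a step to a cone walk -/
theorem cs_of_cc {D : ℕ} {w : Wk D} (h : Cc w) : Cs (w ++ [((0, true) : St D)]) := by
  have e1 : ∀ j : Fin (D + 2), pos ([((0, true) : St D)] : Wk D) 1 j = if (0 : Fin (D + 2)) = j then 1 else 0 := by
    intro j
    have := pos_cons_succ ((0, true) : St D) ([] : Wk D) 0 j
    simp only [zero_add] at this
    rw [this]
    simp [stv, sg]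
  have f1 : F1 ([((0, true) : St D)] : Wk D) 1 = 1 := by
    unfold F1; rw [e1, e1]; simp
  have f2 : F2 ([((0, true) : St D)] : Wk D) 1 = 1 := by
    unfold F2; rw [e1, e1]; simp
  have hl : (w ++ [((0, true) : St D)]).length = w.length + 1 := by simp
  have g1 : F1 (w ++ [((0, true) : St D)]) (w.length + 1) = F1 w w.length + 1 := by
    rw [F1_app_right, f1]
  have g2 : F2 (w ++ [((0, true) : St D)]) (w.length + 1) = F2 w w.length + 1 := by
    rw [F2_app_right, f2]
  have hb : ∀ k < (w ++ [((0, true) : St D)]).length,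
      (0 ≤ F1 (w ++ [((0, true) : St D)]) k ∧ F1 (w ++ [((0, true) : St D)]) k <
        F1 (w ++ [((0, true) : St D)]) (w ++ [((0, true) : St D)]).length) ∧
      0 ≤ F2 (w ++ [((0, true) : St D)]) k ∧ F2 (w ++ [((0, true) : St D)]) k <
        F2 (w ++ [((0, true) : St D)]) (w ++ [((0, true) : St D)]).length := by
    intro k hk
    rw [hl] at hk ⊢
    rw [g1, g2, F1_app_left _ _ (by omega), F2_app_left _ _ (by omega)]
    have := h.2 k (by omega)
    refine ⟨⟨this.1.1, ?_⟩, this.2.1, ?_⟩ <;> omega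
  refine ⟨⟨?_, fun k hk => (hb k hk).1⟩, fun k hk => (hb k hk).2⟩
  intro i hi k hk hp
  rw [hl] at hi hk
  have p1 : F1 (w ++ [((0, true) : St D)]) i = F1 (w ++ [((0, true) : St D)]) k := by
    simp only [F1, hp]
  rcases Nat.lt_or_ge w.length i with h1 | h1
  · rcases Nat.lt_or_ge w.length k with h2 | h2
    · omega
    · exfalso
      have : i = w.length + 1 := by omega
      subst this
      have := (hb k (by rw [hl]; omega)).1.2
      rw [hl] at this
      omega
  · rcases Nat.lt_or_ge w.length k with h2 | h2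
    · exfalso
      have : k = w.length + 1 := by omega
      subst this
      have := (hb i (by rw [hl]; omega)).1.2
      rw [hl] at this
      omega
    · refine h.1 i h1 k h2 ?_
      intro j
      have := hp j
      rwa [pos_append_left _ _ h1, pos_append_left _ _ h2] at this

theorem card_CcF_le (D n : ℕ) : (CcF D n).card ≤ (CsF D (n + 1)).card := by
  apply Finset.card_le_card_of_injOn (fun w => w ++ [((0, true) : St D)])
  · intro w hw
    have hw := mem_CcF.1 (Finset.mem_coe.1 hw)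
    apply Finset.mem_coe.2
    rw [mem_CsF]
    exact ⟨by simp [hw.1], cs_of_cc hw.2⟩
  · intro w _ w' _ h
    exact List.append_cancel_right h

/-- cone walks per dyadic block of lengths -/
theorem block (D s : ℕ) (hs : 0 < s) :
    ∑ m ∈ Finset.Ico s (2 * s), ((CcF D m).card : ℝ) * (mu D)⁻¹ ^ m ≤ 16 * mu D := by
  have hx : 0 < (mu D)⁻¹ := inv_pos.2 (mu_pos D)
  have hmu := mu_pos D
  calc ∑ m ∈ Finset.Ico s (2 * s), ((CcF D m).card : ℝ) * (mu D)⁻¹ ^ m
      ≤ ∑ m ∈ Finset.Ico s (2 * s), mu D * (((CsF D (m + 1)).card : ℝ) * (mu D)⁻¹ ^ (m + 1)) := by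
        refine Finset.sum_le_sum fun m _ => ?_
        have h1 : ((CcF D m).card : ℝ) ≤ ((CsF D (m + 1)).card : ℝ) := by
          exact_mod_cast card_CcF_le D m
        have h2 : mu D * (((CsF D (m + 1)).card : ℝ) * (mu D)⁻¹ ^ (m + 1)) =
            ((CsF D (m + 1)).card : ℝ) * (mu D)⁻¹ ^ m := by
          rw [pow_succ]
          field_simp
        rw [h2]
        exact mul_le_mul_of_nonneg_right h1 (by positivity)
    _ = mu D * ∑ m ∈ Finset.Ico (s + 1) (2 * s + 1),
          (((CsF D m).card : ℝ) * (mu D)⁻¹ ^ m) := by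
        rw [← Finset.mul_sum, Finset.sum_Ico_add' (fun m => ((CsF D m).card : ℝ) *
          (mu D)⁻¹ ^ m) s (2 * s) 1]
    _ ≤ mu D * ∑ m ∈ Finset.Ico (s + 1) (2 * (s + 1)),
          (((CsF D m).card : ℝ) * (mu D)⁻¹ ^ m) := by
        apply mul_le_mul_of_nonneg_left _ hmu.le
        apply Finset.sum_le_sum_of_subset_of_nonneg
        · intro m hm
          rw [Finset.mem_Ico] at hm ⊢
          omega
        · intro m _ _
          positivity
    _ ≤ mu D * 16 := mul_le_mul_of_nonneg_left (block_strict D (s + 1) (by omega)) hmu.le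
    _ = 16 * mu D := mul_comm _ _

/-- all cone walks up to length `M` -/
theorem sum_Cc (D M : ℕ) :
    ∑ m ∈ Finset.Icc 1 M, ((CcF D m).card : ℝ) * (mu D)⁻¹ ^ m ≤
      16 * mu D * ((Nat.log 2 M : ℝ) + 1) := by
  have hx : 0 < (mu D)⁻¹ := inv_pos.2 (mu_pos D)
  have key : ∀ j : ℕ, ∑ m ∈ Finset.Ico 1 (2 ^ j), ((CcF D m).card : ℝ) * (mu D)⁻¹ ^ m ≤
      16 * mu D * j := by
    intro j
    induction j with
    | zero => simp
    | succ j ih =>
      have h1 : ∑ m ∈ Finset.Ico 1 (2 ^ (j + 1)), ((CcF D m).card : ℝ) * (mu D)⁻¹ ^ m =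
          ∑ m ∈ Finset.Ico 1 (2 ^ j), ((CcF D m).card : ℝ) * (mu D)⁻¹ ^ m +
          ∑ m ∈ Finset.Ico (2 ^ j) (2 * 2 ^ j), ((CcF D m).card : ℝ) * (mu D)⁻¹ ^ m := by
        rw [Finset.sum_Ico_consecutive _ (Nat.one_le_two_pow) (by omega)]
        rw [pow_succ, mul_comm]
      rw [h1]
      have h2 := block D (2 ^ j) (by positivity)
      push_cast
      linarith
  calc ∑ m ∈ Finset.Icc 1 M, ((CcF D m).card : ℝ) * (mu D)⁻¹ ^ m
      ≤ ∑ m ∈ Finset.Ico 1 (2 ^ (Nat.log 2 M + 1)), ((CcF D m).card : ℝ) * (mu D)⁻¹ ^ m := by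
        apply Finset.sum_le_sum_of_subset_of_nonneg
        · intro m hm
          rw [Finset.mem_Icc] at hm
          rw [Finset.mem_Ico]
          have := Nat.lt_pow_succ_log_self (b := 2) (by norm_num) M
          exact ⟨hm.1, by omega⟩
        · intro m _ _
          positivity
    _ ≤ 16 * mu D * ((Nat.log 2 M + 1 : ℕ) : ℝ) := key _
    _ = 16 * mu D * ((Nat.log 2 M : ℝ) + 1) := by push_cast; ring

end Pool.Agent.SawCone
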