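import Pool.Agent.SawCone.Count

set_option autoImplicit false

/-!
# MP_b5172a_pr: diagonal cut times, exchange and insertion of diagonal bridges
-/

open scoped Classical

noncomputable section

namespace Pool.Agent.SawCone

open Pool.Agent.SBW

variable {D : ℕ}

/-- the end is a maximum of `F1` -/
def Pc (u : Wk D) : Prop := ∀ k ≤ u.length, F1 u k ≤ F1 u u.length
/-- the start is a strict minimum of `F1` -/
def Fo (y : Wk D) : Prop := ∀ k, 0 < k → k ≤ y.length → 0 < F1 y k

/-- diagonal cut time -/
def Ct (w : Wk D) (k : ℕ) : Prop :=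
  k ≤ w.length ∧ (∀ i ≤ k, F1 w i ≤ F1 w k) ∧ ∀ i, k < i → i ≤ w.length → F1 w k < F1 w i

/-- the diagonal cut times -/
def cts (w : Wk D) : Finset ℕ := (Finset.range (w.length + 1)).filter (Ct w)

theorem mem_cts {w : Wk D} {k : ℕ} : k ∈ cts w ↔ Ct w k := by
  simp only [cts, Finset.mem_filter, Finset.mem_range]
  constructor
  · exact fun h => h.2
  · exact fun h => ⟨by have := h.1; omega, h⟩

theorem saw_app {u y : Wk D} (hu : Saw u) (hy : Saw y) (h1 : Pc u) (h2 : Fo y) :
    Saw (u ++ y) := by
  have key : ∀ i ≤ (u ++ y).length, ∀ k ≤ (u ++ y).length, i ≤ k →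
      (∀ j, pos (u ++ y) i j = pos (u ++ y) k j) → i = k := by
    intro i hi k hk hik hp
    rw [List.length_append] at hi hk
    rcases Nat.le_total k u.length with hku | hku
    · refine hu i (by omega) k hku ?_
      intro j
      have := hp j
      rwa [pos_append_left _ _ (by omega), pos_append_left _ _ hku] at this
    · obtain ⟨k', rfl⟩ := Nat.exists_eq_add_of_le hku
      rcases Nat.le_total u.length i with hiu | hiu
      · obtain ⟨i', rfl⟩ := Nat.exists_eq_add_of_le hiu
        have : i' = k' := by
          refine hy i' (by omega) k' (by omega) ?_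
          intro j
          have := hp j
          rw [pos_append_right, pos_append_right] at this
          linarith
        omega
      · rcases Nat.eq_zero_or_pos k' with h0 | h0
        · subst h0
          refine hu i hiu (u.length + 0) (by omega) ?_
          intro j
          have := hp j
          rwa [pos_append_left _ _ hiu, pos_append_left _ _ (by omega)] at this
        · exfalso
          have e : F1 (u ++ y) i = F1 (u ++ y) (u.length + k') := by
            simp only [F1, hp]
          rw [F1_app_left _ _ hiu, F1_app_right] at e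
          have a := h1 i hiu
          have b := h2 k' h0 (by omega)
          omega
  intro i hi k hk hp
  rcases Nat.le_total i k with h | h
  · exact key i hi k hk h hp
  · exact (key k hk i hi h (fun j => (hp j).symm)).symm

theorem ct_left {u y : Wk D} (h2 : Fo y) {k : ℕ} (hk : k ≤ u.length) (hP : Pc u) :
    Ct (u ++ y) k ↔ Ct u k := by
  constructor
  · rintro ⟨_, h3, h4⟩
    refine ⟨hk, ?_, ?_⟩
    · intro i hi
      have := h3 i hi
      rwa [F1_app_left _ _ (by omega), F1_app_left _ _ hk] at this
    · intro i hi hi'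
      have := h4 i hi (by rw [List.length_append]; omega)
      rwa [F1_app_left _ _ hk, F1_app_left _ _ hi'] at this
  · rintro ⟨_, h3, h4⟩
    refine ⟨by rw [List.length_append]; omega, ?_, ?_⟩
    · intro i hi
      rw [F1_app_left _ _ (by omega), F1_app_left _ _ hk]
      exact h3 i hi
    · intro i hi hi'
      rw [List.length_append] at hi'
      rw [F1_app_left _ _ hk]
      rcases Nat.le_total i u.length with h | h
      · rw [F1_app_left _ _ h]
        exact h4 i hi h
      · obtain ⟨i', rfl⟩ := Nat.exists_eq_add_of_le h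
        rw [F1_app_right]
        have a := hP k hk
        rcases Nat.eq_zero_or_pos i' with h0 | h0
        · subst h0
          rw [F1_zero, add_zero]
          exact h4 u.length (by omega) le_rfl
        · have := h2 i' h0 (by omega)
          omega

theorem ct_right {u y : Wk D} (hP : Pc u) {k : ℕ} :
    Ct (u ++ y) (u.length + k) ↔ Ct y k := by
  constructor
  · rintro ⟨h0, h3, h4⟩
    rw [List.length_append] at h0
    refine ⟨by omega, ?_, ?_⟩
    · intro i hi
      have := h3 (u.length + i) (by omega)
      rw [F1_app_right, F1_app_right] at this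
      linarith
    · intro i hi hi'
      have := h4 (u.length + i) (by omega) (by rw [List.length_append]; omega)
      rw [F1_app_right, F1_app_right] at this
      linarith
  · rintro ⟨h0, h3, h4⟩
    refine ⟨by rw [List.length_append]; omega, ?_, ?_⟩
    · intro i hi
      rw [F1_app_right]
      rcases Nat.le_total i u.length with h | h
      · rw [F1_app_left _ _ h]
        have a := hP i h
        have b := h3 0 (Nat.zero_le k)
        rw [F1_zero] at b
        omega
      · obtain ⟨i', rfl⟩ := Nat.exists_eq_add_of_le h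
        rw [F1_app_right]
        have := h3 i' (by omega)
        omega
    · intro i hi hi'
      rw [List.length_append] at hi'
      obtain ⟨i', rfl⟩ := Nat.exists_eq_add_of_le (by omega : u.length ≤ i)
      rw [F1_app_right, F1_app_right]
      have := h4 i' (by omega) (by omega)
      omega

theorem ct_end {u : Wk D} (h : Pc u) : Ct u u.length :=
  ⟨le_rfl, h, fun i h1 h2 => by omega⟩

theorem ct_start {y : Wk D} (h : Fo y) : Ct y 0 := by
  refine ⟨Nat.zero_le _, ?_, ?_⟩
  · intro i hi
    have : i = 0 := by omega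
    subst this
    exact le_rfl
  · intro i h1 h2
    rw [F1_zero]
    exact h i h1 h2

theorem cts_left {u y : Wk D} (hP : Pc u) (hF : Fo y) :
    (cts (u ++ y)).filter (fun k => k ≤ u.length) = cts u := by
  ext k
  rw [Finset.mem_filter, mem_cts, mem_cts]
  constructor
  · rintro ⟨h, hk⟩
    exact (ct_left hF hk hP).1 h
  · intro h
    exact ⟨(ct_left hF h.1 hP).2 h, h.1⟩

/-- number of cut times of a concatenation -/
theorem card_cts_append {u y : Wk D} (hP : Pc u) (hF : Fo y) :
    (cts (u ++ y)).card + 1 = (cts u).card + (cts y).card := by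
  have h1 : (cts (u ++ y)).filter (fun k => u.length ≤ k) =
      (cts y).image (fun k => u.length + k) := by
    ext k
    rw [Finset.mem_filter, Finset.mem_image, mem_cts]
    constructor
    · rintro ⟨h, hk⟩
      obtain ⟨k', rfl⟩ := Nat.exists_eq_add_of_le hk
      exact ⟨k', mem_cts.2 ((ct_right hP).1 h), rfl⟩
    · rintro ⟨k', h, rfl⟩
      exact ⟨(ct_right hP).2 (mem_cts.1 h), by omega⟩
  have h2 : ((cts (u ++ y)).filter (fun k => u.length ≤ k)).card = (cts y).card := by
    rw [h1]
    apply Finset.card_image_of_injective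
    intro a b hab
    simp only at hab
    omega
  have h3 := cts_left (u := u) (y := y) hP hF
  have h4 : (cts (u ++ y)).filter (fun k => k ≤ u.length) ∪
      (cts (u ++ y)).filter (fun k => u.length ≤ k) = cts (u ++ y) := by
    ext k
    simp only [Finset.mem_union, Finset.mem_filter]
    constructor
    · rintro (h | h) <;> exact h.1
    · intro h
      rcases Nat.le_total k u.length with hk | hk
      · exact Or.inl ⟨h, hk⟩
      · exact Or.inr ⟨h, hk⟩
  have h5 : (cts (u ++ y)).filter (fun k => k ≤ u.length) ∩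
      (cts (u ++ y)).filter (fun k => u.length ≤ k) = {u.length} := by
    ext k
    simp only [Finset.mem_inter, Finset.mem_filter, Finset.mem_singleton, mem_cts]
    constructor
    · rintro ⟨⟨_, a⟩, _, b⟩
      omega
    · rintro rfl
      have := (ct_left (u := u) (y := y) hF le_rfl hP).2 (ct_end hP)
      exact ⟨⟨this, le_rfl⟩, this, le_rfl⟩
  have h6 := Finset.card_union_add_card_inter ((cts (u ++ y)).filter (fun k => k ≤ u.length))
    ((cts (u ++ y)).filter (fun k => u.length ≤ k))
  rw [h4, h5, h3, h2, Finset.card_singleton] at h6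
  exact h6

theorem pc_take {w : Wk D} {c : ℕ} (h : Ct w c) : Pc (w.take c) := by
  intro k hk
  have hc := h.1
  have hl : (w.take c).length = c := by rw [List.length_take]; omega
  rw [hl] at hk ⊢
  rw [F1_take _ hk, F1_take _ le_rfl]
  exact h.2.1 k hk

theorem fo_drop {w : Wk D} {c : ℕ} (h : Ct w c) : Fo (w.drop c) := by
  intro k h0 hk
  rw [List.length_drop] at hk
  rw [F1_drop]
  have := h.2.2 (c + k) (by omega) (by have := h.1; omega)
  linarith

theorem fo_take {w : Wk D} {c : ℕ} (h : Fo w) : Fo (w.take c) := by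
  intro k h0 hk
  rw [List.length_take] at hk
  rw [F1_take _ (by omega)]
  exact h k h0 (by omega)

theorem pc_drop {w : Wk D} {c : ℕ} (hc : c ≤ w.length) (h : Pc w) : Pc (w.drop c) := by
  intro k hk
  rw [List.length_drop] at hk ⊢
  rw [F1_drop, F1_drop]
  have := h (c + k) (by omega)
  have e : c + (w.length - c) = w.length := by omega
  rw [e]
  linarith

theorem pc_sw {w : Wk D} (h : Pc w) : Pc (w.map swS) := by
  intro k hk
  rw [List.length_map] at hk ⊢
  rw [F1_sw, F1_sw]
  exact h k hk

theorem fo_sw {w : Wk D} (h : Fo w) : Fo (w.map swS) := by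
  intro k h0 hk
  rw [List.length_map] at hk
  rw [F1_sw]
  exact h k h0 hk

theorem cts_sw (w : Wk D) : cts (w.map swS) = cts w := by
  ext k
  rw [mem_cts, mem_cts]
  unfold Ct
  simp only [F1_sw, List.length_map]

theorem pc_app {u y : Wk D} (h1 : Pc u) (h2 : Pc y) : Pc (u ++ y) := by
  intro k hk
  rw [List.length_append] at hk ⊢
  rw [F1_app_right]
  have h0 := h2 0 (Nat.zero_le _)
  rw [F1_zero] at h0
  rcases Nat.le_total k u.length with h | h
  · rw [F1_app_left _ _ h]
    have := h1 k h
    linarith
  · obtain ⟨k', rfl⟩ := Nat.exists_eq_add_of_le h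
    rw [F1_app_right]
    have := h2 k' (by omega)
    linarith

theorem fo_app {u y : Wk D} (h1 : Fo u) (h2 : Fo y) : Fo (u ++ y) := by
  intro k h0 hk
  rw [List.length_append] at hk
  rcases Nat.le_total k u.length with h | h
  · rw [F1_app_left _ _ h]
    exact h1 k h0 h
  · obtain ⟨k', rfl⟩ := Nat.exists_eq_add_of_le h
    rw [F1_app_right]
    have a : 0 ≤ F1 u u.length := by
      rcases Nat.eq_zero_or_pos u.length with hu | hu
      · rw [hu]; simp
      · exact (h1 u.length hu le_rfl).le
    rcases Nat.eq_zero_or_pos k' with h3 | h3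
    · subst h3
      rw [F1_zero, add_zero]
      exact h1 u.length (by omega) le_rfl
    · have := h2 k' h3 (by omega)
      omega

/-- diagonal bridge (half-open) -/
def B1 (w : Wk D) : Prop := Saw w ∧ Pc w ∧ Fo w

/-- cone walk (half-open) -/
def Dc (w : Wk D) : Prop :=
  B1 w ∧ (∀ k ≤ w.length, F2 w k ≤ F2 w w.length) ∧ ∀ k, 0 < k → k ≤ w.length → 0 < F2 w k

/-- invariant part of the end point -/
def inv (w : Wk D) : Fin (D + 2) → ℤ :=
  fun l => if l = 0 then F1 w w.length else if l = 1 then 0 else pos w w.length l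

theorem inv_append (u v : Wk D) : inv (u ++ v) = inv u + inv v := by
  funext l
  simp only [inv, Pi.add_apply]
  by_cases h0 : l = 0
  · simp only [h0, if_true]
    rw [List.length_append, F1_app_right]
  · by_cases h1 : l = 1
    · simp only [h1, if_true]
      simp
    · simp only [h0, h1, if_false]
      rw [pos_end_append]

theorem inv_sw (w : Wk D) : inv (w.map swS) = inv w := by
  funext l
  simp only [inv, F1_sw, List.length_map, pos_map_sw]
  by_cases h0 : l = 0
  · simp [h0]
  · by_cases h1 : l = 1
    · simp [h1]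
    · simp only [h0, h1, if_false]
      rw [Equiv.swap_apply_of_ne_of_ne h0 h1]

/-- the last maximum of `F2` -/
def LM (z : Wk D) (J : ℕ) : Prop :=
  J ≤ z.length ∧ (∀ i ≤ J, F2 z i ≤ F2 z J) ∧ ∀ i, J < i → i ≤ z.length → F2 z i < F2 z J

theorem LM.unique {z : Wk D} {J J' : ℕ} (h : LM z J) (h' : LM z J') : J = J' := by
  rcases Nat.lt_trichotomy J J' with h1 | h1 | h1
  · have a := h.2.2 J' h1 h'.1
    have b := h'.2.1 J h1.le
    omega
  · exact h1
  · have a := h'.2.2 J h1 h.1
    have b := h.2.1 J' h1.le
    omega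

/-- reflection of the future at a maximum -/
theorem LM_glue {Q P : Wk D} (hQ : ∀ k ≤ Q.length, F2 Q k ≤ F2 Q Q.length)
    (hP : ∀ k, 0 < k → k ≤ P.length → 0 < F2 P k) : LM (Q ++ P.map swS) Q.length := by
  refine ⟨by rw [List.length_append]; omega, ?_, ?_⟩
  · intro i hi
    rw [F2_app_left _ _ hi, F2_app_left _ _ le_rfl]
    exact hQ i hi
  · intro i h1 h2
    rw [List.length_append, List.length_map] at h2
    obtain ⟨i', rfl⟩ := Nat.exists_eq_add_of_le h1.le
    rw [F2_app_right, F2_app_left _ _ le_rfl, F2_sw]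
    have := hP i' (by omega) (by omega)
    omega

/-- bridges with `k` steps and `m + 1` cut times -/
def BF (D k m : ℕ) : Finset (Wk D) := (WL D k).filter (fun w => B1 w ∧ (cts w).card = m + 1)
/-- cone walks with `k` steps and `m + 1` cut times -/
def DF (D k m : ℕ) : Finset (Wk D) := (WL D k).filter (fun w => Dc w ∧ (cts w).card = m + 1)

theorem mem_BF {k m : ℕ} {w : Wk D} :
    w ∈ BF D k m ↔ w.length = k ∧ B1 w ∧ (cts w).card = m + 1 := by
  simp [BF, mem_WL]
theorem mem_DF {k m : ℕ} {w : Wk D} :
    w ∈ DF D k m ↔ w.length = k ∧ Dc w ∧ (cts w).card = m + 1 := by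
  simp [DF, mem_WL]

/-- sums along an injection -/
theorem sum_inj {α β : Type} (S : Finset α) (T : Finset β) (e : α → β)
    (f : α → ℝ) (g : β → ℝ) (he : Set.InjOn e S) (hm : ∀ a ∈ S, e a ∈ T)
    (hfg : ∀ a ∈ S, f a ≤ g (e a)) (hg : ∀ b ∈ T, 0 ≤ g b) :
    ∑ a ∈ S, f a ≤ ∑ b ∈ T, g b := by
  calc ∑ a ∈ S, f a ≤ ∑ a ∈ S, g (e a) := Finset.sum_le_sum hfg
    _ = ∑ b ∈ S.image e, g b := by rw [Finset.sum_image he]
    _ ≤ ∑ b ∈ T, g b := by
      apply Finset.sum_le_sum_of_subset_of_nonneg
      · intro b hb
        obtain ⟨a, ha, rfl⟩ := Finset.mem_image.1 hb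
        exact hm a ha
      · intro b hb _
        exact hg b hb

/-- exchange: cone walks are rare among bridges with the same number of cut times -/
theorem exchange (D k m : ℕ) (h : (Fin (D + 2) → ℤ) → ℝ) (hh : ∀ z, 0 ≤ h z) :
    ((m : ℝ) + 1) * ∑ v ∈ DF D k m, h (inv v) ≤ ∑ v ∈ BF D k m, h (inv v) := by
  have e1 : ((m : ℝ) + 1) * ∑ v ∈ DF D k m, h (inv v) =
      ∑ p ∈ (DF D k m).sigma (fun v => cts v), h (inv p.1) := by
    rw [Finset.sum_sigma, Finset.mul_sum]
    refine Finset.sum_congr rfl fun v hv => ?_
    simp only [Finset.sum_const, nsmul_eq_mul]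
    rw [(mem_DF.1 hv).2.2]
    push_cast
    ring
  rw [e1]
  have key : ∀ p : (Σ _ : Wk D, ℕ), p ∈ (DF D k m).sigma (fun v => cts v) →
      LM (p.1.drop p.2 ++ (p.1.take p.2).map swS) (p.1.drop p.2).length ∧
      (p.1.drop p.2 ++ (p.1.take p.2).map swS) ∈ BF D k m := by
    rintro ⟨v, c⟩ hp
    obtain ⟨hv, hc⟩ := Finset.mem_sigma.1 hp
    simp only at hv hc ⊢
    obtain ⟨hl, hD, hcard⟩ := mem_DF.1 hv
    have hc := mem_cts.1 hc
    have hc0 := hc.1
    obtain ⟨⟨hS, hP, hF⟩, h2, h3⟩ := hD
    have hlt : (v.take c).length = c := by rw [List.length_take]; omega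
    have hld : (v.drop c).length = v.length - c := List.length_drop
    constructor
    · apply LM_glue
      · intro i hi
        rw [hld] at hi ⊢
        rw [F2_drop, F2_drop]
        have e : c + (v.length - c) = v.length := by omega
        rw [e]
        have := h2 (c + i) (by omega)
        linarith
      · intro i h4 h5
        rw [hlt] at h5
        rw [F2_take _ h5]
        exact h3 i h4 (by omega)
    · have a1 := pc_take hc
      have a2 := fo_drop hc
      have a3 : Fo (v.take c) := fo_take hF
      have a4 : Pc (v.drop c) := pc_drop hc0 hP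
      refine mem_BF.2 ⟨?_, ⟨?_, ?_, ?_⟩, ?_⟩
      · rw [List.length_append, List.length_map, hlt, hld]
        omega
      · exact saw_app (CN_.saw_drop hS c) (saw_sw (CN_.saw_take hS c)) a4 (fo_sw a3)
      · exact pc_app a4 (pc_sw a1)
      · exact fo_app a2 (fo_sw a3)
      · have b1 := card_cts_append a4 (fo_sw a3)
        have b2 := card_cts_append a1 a2
        rw [List.take_append_drop] at b2
        rw [cts_sw] at b1
        omega
  apply sum_inj _ _ (fun p => p.1.drop p.2 ++ (p.1.take p.2).map swS)
  · rintro ⟨v, c⟩ hp ⟨v', c'⟩ hp' he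
    simp only at he
    have k1 := (key _ (Finset.mem_coe.1 hp)).1
    have k2 := (key _ (Finset.mem_coe.1 hp')).1
    simp only at k1 k2
    rw [he] at k1
    have k3 := k1.unique k2
    obtain ⟨f1, f2⟩ := List.append_inj he k3
    have f3 : v.take c = v'.take c' := by
      have := congrArg (List.map swS) f2
      rwa [map_sw_sw, map_sw_sw] at this
    have f4 : v = v' := by
      rw [← List.take_append_drop c v, ← List.take_append_drop c' v', f1, f3]
    have hc := (mem_cts.1 (Finset.mem_sigma.1 (Finset.mem_coe.1 hp)).2).1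
    have hc' := (mem_cts.1 (Finset.mem_sigma.1 (Finset.mem_coe.1 hp')).2).1
    simp only at hc hc'
    have f5 : c = c' := by
      have := congrArg List.length f3
      rw [List.length_take, List.length_take] at this
      omega
    subst f4 f5
    rfl
  · intro p hp
    exact (key p hp).2
  · rintro ⟨v, c⟩ _
    simp only
    rw [inv_append, inv_sw, add_comm, ← inv_append, List.take_append_drop]
  · intro b _
    exact hh _

/-- walks with a cut time -/
def S0 (D n : ℕ) : Finset (Wk D) := (SwF D n).filter (fun w => (cts w).Nonempty)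

theorem mem_S0 {n : ℕ} {w : Wk D} : w ∈ S0 D n ↔ w ∈ SwF D n ∧ (cts w).Nonempty := by
  simp [S0]

/-- the first cut time -/
def c0 (w : Wk D) : ℕ := if h : (cts w).Nonempty then (cts w).min' h else 0

theorem c0_mem {w : Wk D} (h : (cts w).Nonempty) : c0 w ∈ cts w := by
  unfold c0
  rw [dif_pos h]
  exact Finset.min'_mem _ _

theorem c0_le {w : Wk D} {k : ℕ} (hk : k ∈ cts w) : c0 w ≤ k := by
  unfold c0
  rw [dif_pos ⟨k, hk⟩]
  exact Finset.min'_le _ _ hk

/-- insertion of a bridge at the first cut time -/
def ins (V w : Wk D) : Wk D := w.take (c0 w) ++ (V ++ w.drop (c0 w))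

theorem insertion (D n m : ℕ) (g : (Fin (D + 2) → ℤ) → ℝ) (hg : ∀ z, 0 ≤ g z) :
    ∑ k ∈ Finset.Icc 1 n, ∑ V ∈ BF D k m, ∑ w ∈ S0 D (n - k), g (inv V + inv w) ≤
      ∑ w ∈ S0 D n, g (inv w) := by
  have e1 : ∑ k ∈ Finset.Icc 1 n, ∑ V ∈ BF D k m, ∑ w ∈ S0 D (n - k), g (inv V + inv w) =
      ∑ p ∈ (Finset.Icc 1 n).sigma (fun k => BF D k m ×ˢ S0 D (n - k)),
        g (inv p.2.1 + inv p.2.2) := by
    rw [Finset.sum_sigma]
    refine Finset.sum_congr rfl fun k _ => ?_
    rw [Finset.sum_product]
  rw [e1]
  have key : ∀ V w : Wk D, B1 V → Saw w → (cts w).Nonempty → (cts V).card = m + 1 →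
      (∀ j ∈ cts (ins V w), c0 w ≤ j) ∧ c0 w ∈ cts (ins V w) ∧
      ((cts (ins V w)).filter (fun j => j ≤ c0 w + V.length)).card = m + 1 ∧
      c0 w + V.length ∈ cts (ins V w) ∧ Saw (ins V w) := by
    intro V w hV hw hne hcard
    have hc := mem_cts.1 (c0_mem hne)
    have hc0 := hc.1
    have a1 := pc_take hc
    have a2 := fo_drop hc
    obtain ⟨hS, hP, hF⟩ := hV
    have hlt : (w.take (c0 w)).length = c0 w := by rw [List.length_take]; omega
    have b1 : Fo (V ++ w.drop (c0 w)) := fo_app hF a2
    have b2 : Pc (w.take (c0 w) ++ V) := pc_app a1 hP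
    have hassoc : ins V w = (w.take (c0 w) ++ V) ++ w.drop (c0 w) := by
      unfold ins
      rw [List.append_assoc]
    have hu1 : cts (w.take (c0 w)) = {c0 w} := by
      ext j
      rw [Finset.mem_singleton]
      constructor
      · intro hj
        have hj' := mem_cts.1 hj
        have hjl := hj'.1
        rw [hlt] at hjl
        have : j ∈ cts w := by
          rw [mem_cts, ← List.take_append_drop (c0 w) w]
          exact (ct_left a2 (by rw [hlt]; exact hjl) a1).2 hj'
        have := c0_le this
        omega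
      · rintro rfl
        rw [mem_cts]
        have := ct_end a1
        rwa [hlt] at this
    have hleft : (cts (ins V w)).filter (fun j => j ≤ c0 w) = {c0 w} := by
      have := cts_left a1 b1
      rw [hlt, hu1] at this
      exact this
    refine ⟨?_, ?_, ?_, ?_, ?_⟩
    · intro j hj
      by_contra hlt'
      push Not at hlt'
      have : j ∈ (cts (ins V w)).filter (fun j => j ≤ c0 w) :=
        Finset.mem_filter.2 ⟨hj, hlt'.le⟩
      rw [hleft, Finset.mem_singleton] at this
      omega
    · have : c0 w ∈ (cts (ins V w)).filter (fun j => j ≤ c0 w) := by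
        rw [hleft, Finset.mem_singleton]
      exact (Finset.mem_filter.1 this).1
    · have c1 := cts_left b2 a2
      rw [← hassoc, List.length_append, hlt] at c1
      rw [c1]
      have c2 := card_cts_append a1 hF
      rw [hu1, Finset.card_singleton, hcard] at c2
      omega
    · rw [hassoc, mem_cts]
      have := (ct_left (u := w.take (c0 w) ++ V) a2 le_rfl b2).2 (ct_end b2)
      rwa [List.length_append, hlt] at this
    · exact saw_app (CN_.saw_take hw _) (saw_app hS (CN_.saw_drop hw _) hP a2) a1 b1
  apply sum_inj _ _ (fun p => ins p.2.1 p.2.2)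
  · rintro ⟨k, V, w⟩ hp ⟨k', V', w'⟩ hp' he
    simp only at he
    obtain ⟨hk, hp⟩ := Finset.mem_sigma.1 (Finset.mem_coe.1 hp)
    obtain ⟨hk', hp'⟩ := Finset.mem_sigma.1 (Finset.mem_coe.1 hp')
    simp only [Finset.mem_product, mem_BF, mem_S0, mem_SwF] at hp hp'
    obtain ⟨⟨hVl, hV, hVc⟩, ⟨hwl, hw⟩, hne⟩ := hp
    obtain ⟨⟨hVl', hV', hVc'⟩, ⟨hwl', hw'⟩, hne'⟩ := hp'
    obtain ⟨q1, q2, q3, q4, _⟩ := key V w hV hw hne hVc
    obtain ⟨r1, r2, r3, r4, _⟩ := key V' w' hV' hw' hne' hVc'
    rw [he] at q1 q2 q3 q4
    have e2 : c0 w = c0 w' := le_antisymm (q1 _ r2) (r1 _ q2)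
    have e3 : V.length = V'.length := by
      have aux : ∀ a b : ℕ, a < b → b ∈ cts (ins V' w') →
          ((cts (ins V' w')).filter (fun j => j ≤ a)).card = m + 1 →
          ((cts (ins V' w')).filter (fun j => j ≤ b)).card = m + 1 → False := by
        intro a b hab hb h1 h2
        have hss : (cts (ins V' w')).filter (fun j => j ≤ a) ⊂
            (cts (ins V' w')).filter (fun j => j ≤ b) := by
          rw [Finset.ssubset_iff_of_subset]
          · exact ⟨b, Finset.mem_filter.2 ⟨hb, le_rfl⟩, fun hc => by
              have := (Finset.mem_filter.1 hc).2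
              omega⟩
          · intro j hj
            rw [Finset.mem_filter] at hj ⊢
            exact ⟨hj.1, by omega⟩
        have := Finset.card_lt_card hss
        omega
      rcases Nat.lt_trichotomy (c0 w + V.length) (c0 w' + V'.length) with h | h | h
      · exact (aux _ _ h r4 q3 r3).elim
      · omega
      · exact (aux _ _ h q4 r3 q3).elim
    have hc := (mem_cts.1 (c0_mem hne)).1
    have hc' := (mem_cts.1 (c0_mem hne')).1
    unfold ins at he
    obtain ⟨f1, f2⟩ := List.append_inj he (by
      rw [List.length_take, List.length_take]; omega)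
    obtain ⟨f3, f4⟩ := List.append_inj f2 e3
    have f5 : w = w' := by
      rw [← List.take_append_drop (c0 w) w, f1, f4, List.take_append_drop]
    have f6 : k = k' := by omega
    subst f6 f5 f3
    rfl
  · rintro ⟨k, V, w⟩ hp
    obtain ⟨hk, hp⟩ := Finset.mem_sigma.1 hp
    simp only [Finset.mem_product, mem_BF, mem_S0, mem_SwF] at hp
    obtain ⟨⟨hVl, hV, hVc⟩, ⟨hwl, hw⟩, hne⟩ := hp
    obtain ⟨_, q2, _, _, q5⟩ := key V w hV hw hne hVc
    have hc := (mem_cts.1 (c0_mem hne)).1
    rw [Finset.mem_Icc] at hk
    simp only at hk ⊢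
    refine mem_S0.2 ⟨mem_SwF.2 ⟨?_, q5⟩, ⟨_, q2⟩⟩
    unfold ins
    rw [List.length_append, List.length_append, List.length_take, List.length_drop]
    omega
  · rintro ⟨k, V, w⟩ _
    simp only
    have : inv (ins V w) = inv V + inv w := by
      unfold ins
      rw [inv_append, inv_append]
      conv_rhs => rw [← List.take_append_drop (c0 w) w, inv_append]
      abel
    rw [this]
  · intro b _
    exact hg _

end Pool.Agent.SawCone
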