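import Pool.Agent.SawCone.Cut

set_option autoImplicit false

/-!
# MP_b5172a_pr: factorial moments of the number of cone points
-/

open scoped Classical

noncomputable section

namespace Pool.Agent.SawCone

open Pool.Agent.SBW

variable {D : ℕ}

/-- cone point (past in the closed cone, future in the open cone) -/
def IsO (w : Wk D) (k : ℕ) : Prop :=
  k ≤ w.length ∧ (∀ i ≤ k, F1 w i ≤ F1 w k ∧ F2 w i ≤ F2 w k) ∧
    ∀ i, k < i → i ≤ w.length → F1 w k < F1 w i ∧ F2 w k < F2 w i

/-- the cone points -/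
def CO (w : Wk D) : Finset ℕ := (Finset.range (w.length + 1)).filter (IsO w)

theorem mem_CO {w : Wk D} {k : ℕ} : k ∈ CO w ↔ IsO w k := by
  simp only [CO, Finset.mem_filter, Finset.mem_range]
  constructor
  · exact fun h => h.2
  · exact fun h => ⟨by have := h.1; omega, h⟩

theorem IsO.ct {w : Wk D} {k : ℕ} (h : IsO w k) : Ct w k :=
  ⟨h.1, fun i hi => (h.2.1 i hi).1, fun i h1 h2 => (h.2.2 i h1 h2).1⟩

theorem choose_card (S : Finset ℕ) (r : ℕ) :
    S.card.choose (r + 1) = ∑ T ∈ S, (S.filter (fun a => T < a)).card.choose r := by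
  induction S using Finset.induction_on_min with
  | empty => simp
  | insert a s ha ih =>
    have hn : a ∉ s := fun h => lt_irrefl a (ha a h)
    rw [Finset.card_insert_of_notMem hn, Finset.sum_insert hn]
    have e1 : (insert a s).filter (fun b => a < b) = s := by
      ext b
      simp only [Finset.mem_filter, Finset.mem_insert]
      constructor
      · rintro ⟨rfl | h, h2⟩
        · exact absurd h2 (lt_irrefl _)
        · exact h
      · intro h
        exact ⟨Or.inr h, ha b h⟩
    have e2 : ∑ T ∈ s, ((insert a s).filter (fun b => T < b)).card.choose r =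
        ∑ T ∈ s, (s.filter (fun b => T < b)).card.choose r := by
      refine Finset.sum_congr rfl fun T hT => ?_
      congr 2
      ext b
      simp only [Finset.mem_filter, Finset.mem_insert]
      constructor
      · rintro ⟨rfl | h, h2⟩
        · exact absurd (ha T hT) (by omega)
        · exact ⟨h, h2⟩
      · rintro ⟨h, h2⟩
        exact ⟨Or.inr h, h2⟩
    rw [e1, e2, Nat.choose_succ_succ, ih]

/-- past condition at the end -/
def Pa (u : Wk D) : Prop := ∀ k ≤ u.length, F1 u k ≤ F1 u u.length ∧ F2 u k ≤ F2 u u.length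
/-- future condition at the start -/
def Fu (x : Wk D) : Prop := ∀ k, 0 < k → k ≤ x.length → 0 < F1 x k ∧ 0 < F2 x k

theorem pa_take {w : Wk D} {T : ℕ} (h : IsO w T) : Pa (w.take T) := by
  intro k hk
  have hT := h.1
  have hl : (w.take T).length = T := by rw [List.length_take]; omega
  rw [hl] at hk ⊢
  rw [F1_take _ hk, F1_take _ le_rfl, F2_take _ hk, F2_take _ le_rfl]
  exact h.2.1 k hk

theorem fu_drop {w : Wk D} {T : ℕ} (h : IsO w T) : Fu (w.drop T) := by
  intro k h0 hk
  rw [List.length_drop] at hk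
  rw [F1_drop, F2_drop]
  have := h.2.2 (T + k) (by omega) (by have := h.1; omega)
  constructor <;> linarith [this.1, this.2]

theorem isO_glue {u x : Wk D} (hu : Pa u) (hx : Fu x) : IsO (u ++ x) u.length := by
  refine ⟨by rw [List.length_append]; omega, ?_, ?_⟩
  · intro i hi
    rw [F1_app_left _ _ hi, F1_app_left _ _ le_rfl, F2_app_left _ _ hi, F2_app_left _ _ le_rfl]
    exact hu i hi
  · intro i h1 h2
    rw [List.length_append] at h2
    obtain ⟨i', rfl⟩ := Nat.exists_eq_add_of_le h1.le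
    rw [F1_app_right, F2_app_right, F1_app_left _ _ le_rfl, F2_app_left _ _ le_rfl]
    have := hx i' (by omega) (by omega)
    constructor <;> linarith [this.1, this.2]

/-- a later cone point survives the removal of the segment -/
theorem isO_shift {w u : Wk D} (hu : Pa u) {T' k : ℕ} (h' : IsO w T') (hk : T' < k)
    (h : IsO w k) : IsO (u ++ w.drop T') (u.length + (k - T')) := by
  have e : T' + (k - T') = k := by omega
  have hk0 := h.1
  have hpos := h'.2.2 k hk hk0
  refine ⟨?_, ?_, ?_⟩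
  · rw [List.length_append, List.length_drop]
    omega
  · intro i hi
    rw [F1_app_right, F2_app_right, F1_drop, F2_drop, e]
    rcases Nat.le_total i u.length with hiu | hiu
    · rw [F1_app_left _ _ hiu, F2_app_left _ _ hiu]
      have := hu i hiu
      constructor <;> linarith [this.1, this.2, hpos.1, hpos.2]
    · obtain ⟨i', rfl⟩ := Nat.exists_eq_add_of_le hiu
      rw [F1_app_right, F2_app_right, F1_drop, F2_drop]
      have := h.2.1 (T' + i') (by omega)
      constructor <;> linarith [this.1, this.2]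
  · intro i h1 h2
    rw [List.length_append, List.length_drop] at h2
    obtain ⟨i', rfl⟩ := Nat.exists_eq_add_of_le (by omega : u.length ≤ i)
    rw [F1_app_right, F2_app_right, F1_drop, F2_drop, e, F1_app_right, F2_app_right, F1_drop,
      F2_drop]
    have := h.2.2 (T' + i') (by omega) (by omega)
    constructor <;> linarith [this.1, this.2]

theorem dc_seg {w : Wk D} (hw : Saw w) {T T' : ℕ} (hT : T ≤ T') (h : IsO w T) (h' : IsO w T') :
    Dc ((w.take T').drop T) := by
  have h0 := h.1
  have h0' := h'.1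
  have hl : ((w.take T').drop T).length = T' - T := by
    rw [List.length_drop, List.length_take]; omega
  have e : T + (T' - T) = T' := by omega
  have f1 : ∀ k ≤ T' - T, F1 ((w.take T').drop T) k = F1 w (T + k) - F1 w T := by
    intro k hk
    rw [F1_drop, F1_take _ (by omega), F1_take _ hT]
  have f2 : ∀ k ≤ T' - T, F2 ((w.take T').drop T) k = F2 w (T + k) - F2 w T := by
    intro k hk
    rw [F2_drop, F2_take _ (by omega), F2_take _ hT]
  refine ⟨⟨CN_.saw_drop (CN_.saw_take hw T') T, ?_, ?_⟩, ?_, ?_⟩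
  · intro k hk
    rw [hl] at hk ⊢
    rw [f1 k hk, f1 _ le_rfl, e]
    have := (h'.2.1 (T + k) (by omega)).1
    linarith
  · intro k hk0 hk
    rw [hl] at hk
    rw [f1 k hk]
    have := (h.2.2 (T + k) (by omega) (by omega)).1
    linarith
  · intro k hk
    rw [hl] at hk ⊢
    rw [f2 k hk, f2 _ le_rfl, e]
    have := (h'.2.1 (T + k) (by omega)).2
    linarith
  · intro k hk0 hk
    rw [hl] at hk
    rw [f2 k hk]
    have := (h.2.2 (T + k) (by omega) (by omega)).2
    linarith

/-- number of later cone points -/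
def lat (w : Wk D) (T : ℕ) : ℕ := ((CO w).filter (fun a => T < a)).card

/-- factorial moment with weights -/
def GG (D n r : ℕ) (g : (Fin (D + 2) → ℤ) → ℝ) : ℝ :=
  ∑ w ∈ SwF D n, ∑ T ∈ CO w, ((lat w T).choose r : ℝ) * g (inv w)

theorem GG_eq (D n r : ℕ) (g : (Fin (D + 2) → ℤ) → ℝ) :
    ∑ w ∈ SwF D n, ((CO w).card.choose (r + 1) : ℝ) * g (inv w) = GG D n r g := by
  unfold GG
  refine Finset.sum_congr rfl fun w _ => ?_
  rw [choose_card, ← Finset.sum_mul]
  push_cast
  rfl

/-- mean number of cone points -/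
theorem GG_zero (D n : ℕ) (g : (Fin (D + 2) → ℤ) → ℝ) (hg : ∀ z, 0 ≤ g z) :
    GG D n 0 g ≤ ∑ w ∈ S0 D n, g (inv w) := by
  unfold GG
  simp only [Nat.choose_zero_right, Nat.cast_one, one_mul]
  rw [← Finset.sum_sigma (SwF D n) (fun w => CO w) (fun p => g (inv p.1))]
  have key : ∀ p : (Σ _ : Wk D, ℕ), p ∈ (SwF D n).sigma (fun w => CO w) →
      LM (p.1.take p.2 ++ (p.1.drop p.2).map swS) (p.1.take p.2).length ∧
      (p.1.take p.2 ++ (p.1.drop p.2).map swS) ∈ S0 D n ∧ (p.1.take p.2).length = p.2 := by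
    rintro ⟨w, T⟩ hp
    obtain ⟨hw, hT⟩ := Finset.mem_sigma.1 hp
    simp only at hw hT ⊢
    obtain ⟨hl, hs⟩ := mem_SwF.1 hw
    have hT := mem_CO.1 hT
    have hT0 := hT.1
    have hlt : (w.take T).length = T := by rw [List.length_take]; omega
    have a1 := pa_take hT
    have a2 := fu_drop hT
    have b1 : Pc (w.take T) := fun k hk => (a1 k hk).1
    have b2 : Fo ((w.drop T).map swS) := fo_sw (fun k h1 h2 => (a2 k h1 h2).1)
    refine ⟨LM_glue (fun k hk => (a1 k hk).2) (fun k h1 h2 => (a2 k h1 h2).2), ?_, hlt⟩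
    refine mem_S0.2 ⟨mem_SwF.2 ⟨?_, ?_⟩, ?_⟩
    · rw [List.length_append, List.length_map, List.length_drop, hlt]
      omega
    · exact saw_app (CN_.saw_take hs T) (saw_sw (CN_.saw_drop hs T)) b1 b2
    · exact ⟨(w.take T).length, mem_cts.2 ((ct_left b2 le_rfl b1).2 (ct_end b1))⟩
  apply sum_inj _ _ (fun p => p.1.take p.2 ++ (p.1.drop p.2).map swS)
  · rintro ⟨w, T⟩ hp ⟨w', T'⟩ hp' he
    simp only at he
    obtain ⟨k1, _, l1⟩ := key _ (Finset.mem_coe.1 hp)
    obtain ⟨k2, _, l2⟩ := key _ (Finset.mem_coe.1 hp')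
    simp only at k1 k2 l1 l2
    rw [he] at k1
    have k3 := k1.unique k2
    obtain ⟨f1, f2⟩ := List.append_inj he k3
    have f3 : w.drop T = w'.drop T' := by
      have := congrArg (List.map swS) f2
      rwa [map_sw_sw, map_sw_sw] at this
    have f4 : w = w' := by
      rw [← List.take_append_drop T w, ← List.take_append_drop T' w', f1, f3]
    have f5 : T = T' := by omega
    subst f4 f5
    rfl
  · intro p hp
    exact (key p hp).2.1
  · rintro ⟨w, T⟩ _
    simp only
    rw [inv_append, inv_sw, ← inv_append, List.take_append_drop]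
  · intro b _
    exact hg _

/-- cone walks with `k` steps -/
def DcF (D k : ℕ) : Finset (Wk D) := (WL D k).filter Dc

theorem mem_DcF {k : ℕ} {w : Wk D} : w ∈ DcF D k ↔ w.length = k ∧ Dc w := by
  simp [DcF, mem_WL]

theorem lat_le {w : Wk D} {T T' : ℕ} (hT : T ≤ T') (h : IsO w T) (h' : IsO w T') :
    lat w T' ≤ lat (w.take T ++ w.drop T') T := by
  have hT0 := h.1
  have hlt : (w.take T).length = T := by rw [List.length_take]; omega
  apply Finset.card_le_card_of_injOn (fun k => T + (k - T'))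
  · intro k hk
    have hk := Finset.mem_filter.1 (Finset.mem_coe.1 hk)
    have h1 := mem_CO.1 hk.1
    apply Finset.mem_coe.2
    rw [Finset.mem_filter, mem_CO]
    have := isO_shift (pa_take h) h' hk.2 h1
    rw [hlt] at this
    refine ⟨this, ?_⟩
    have h2 := hk.2
    change T < T + (k - T')
    omega
  · intro k hk k' hk' he
    have hk := (Finset.mem_filter.1 (Finset.mem_coe.1 hk)).2
    have hk' := (Finset.mem_filter.1 (Finset.mem_coe.1 hk')).2
    simp only at he
    omega

theorem GG_succ (D n r : ℕ) (g : (Fin (D + 2) → ℤ) → ℝ) (hg : ∀ z, 0 ≤ g z) :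
    GG D n (r + 1) g ≤ ∑ k ∈ Finset.Icc 1 n, ∑ v ∈ DcF D k,
      GG D (n - k) r (fun z => g (inv v + z)) := by
  have e1 : GG D n (r + 1) g =
      ∑ p ∈ (SwF D n).sigma (fun w => (CO w).sigma (fun T => (CO w).filter (fun a => T < a))),
        ((lat p.1 p.2.2).choose r : ℝ) * g (inv p.1) := by
    unfold GG
    rw [Finset.sum_sigma]
    refine Finset.sum_congr rfl fun w _ => ?_
    rw [Finset.sum_sigma]
    refine Finset.sum_congr rfl fun T _ => ?_
    change _ = ∑ s ∈ (CO w).filter (fun a => T < a), ((lat w s).choose r : ℝ) * g (inv w)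
    rw [← Finset.sum_mul]
    congr 1
    have h1 := choose_card ((CO w).filter (fun a => T < a)) r
    have h2 : ∑ a ∈ (CO w).filter (fun a => T < a),
        (((CO w).filter (fun a => T < a)).filter (fun b => a < b)).card.choose r =
        ∑ a ∈ (CO w).filter (fun a => T < a), (lat w a).choose r := by
      refine Finset.sum_congr rfl fun a ha => ?_
      have ha := (Finset.mem_filter.1 ha).2
      unfold lat
      congr 2
      ext b
      simp only [Finset.mem_filter]
      constructor
      · rintro ⟨⟨h1, _⟩, h3⟩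
        exact ⟨h1, h3⟩
      · rintro ⟨h1, h3⟩
        exact ⟨⟨h1, by omega⟩, h3⟩
    rw [h2] at h1
    unfold lat at h1 ⊢
    rw [h1]
    push_cast
    rfl
  have e2 : ∑ k ∈ Finset.Icc 1 n, ∑ v ∈ DcF D k, GG D (n - k) r (fun z => g (inv v + z)) =
      ∑ q ∈ (Finset.Icc 1 n).sigma (fun k => (DcF D k) ×ˢ
        ((SwF D (n - k)).sigma (fun w => CO w))),
        ((lat q.2.2.1 q.2.2.2).choose r : ℝ) * g (inv q.2.1 + inv q.2.2.1) := by
    rw [Finset.sum_sigma]
    refine Finset.sum_congr rfl fun k _ => ?_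
    rw [Finset.sum_product]
    refine Finset.sum_congr rfl fun v _ => ?_
    rw [Finset.sum_sigma]
    rfl
  rw [e1, e2]
  have seg : ∀ (w : Wk D) (T T' : ℕ), T ≤ T' →
      w = w.take T ++ ((w.take T').drop T ++ w.drop T') := by
    intro w T T' h
    have c1 : w.take T = (w.take T').take T := by rw [List.take_take, min_eq_left h]
    rw [c1, ← List.append_assoc, List.take_append_drop, List.take_append_drop]
  apply sum_inj _ _ (fun p => (⟨p.2.2 - p.2.1, ((p.1.take p.2.2).drop p.2.1,
    ⟨p.1.take p.2.1 ++ p.1.drop p.2.2, p.2.1⟩)⟩ : (Σ _ : ℕ, (Wk D × (Σ _ : Wk D, ℕ)))))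
  · rintro ⟨w, T, T'⟩ hp ⟨v, S, S'⟩ hp' he
    simp only [Finset.coe_sigma, Set.mem_sigma_iff, Finset.mem_coe, Finset.mem_filter,
      mem_CO] at hp hp'
    obtain ⟨_, hT, hT', hlt⟩ := hp
    obtain ⟨_, hS, hS', hlt'⟩ := hp'
    simp only [Sigma.mk.injEq, heq_eq_eq, Prod.mk.injEq] at he
    obtain ⟨e0, e1, e2, rfl⟩ := he
    have a1 := hT.1
    have a2 := hT'.1
    have a3 := hS.1
    have a4 := hS'.1
    obtain ⟨b1, b2⟩ := List.append_inj e2 (by
      rw [List.length_take, List.length_take]; omega)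
    have hTS : T' = S' := by omega
    subst hTS
    have : w = v := by
      rw [seg w T T' hlt.le, seg v T T' hlt.le, b1, b2, e1]
    subst this
    rfl
  · rintro ⟨w, T, T'⟩ hp
    simp only [Finset.mem_sigma, Finset.mem_filter, mem_CO] at hp
    obtain ⟨hw, hT, hT', hlt⟩ := hp
    obtain ⟨hl, hs⟩ := mem_SwF.1 hw
    have a1 := hT.1
    have a2 := hT'.1
    have hltt : (w.take T).length = T := by rw [List.length_take]; omega
    simp only [Finset.mem_sigma, Finset.mem_product, Finset.mem_Icc, mem_DcF, mem_CO]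
    refine ⟨by omega, ⟨?_, dc_seg hs hlt.le hT hT'⟩, ?_, ?_⟩
    · rw [List.length_drop, List.length_take]
      omega
    · rw [mem_SwF]
      refine ⟨?_, ?_⟩
      · rw [List.length_append, hltt, List.length_drop]
        omega
      · exact saw_app (CN_.saw_take hs T) (CN_.saw_drop hs T')
          (fun k hk => (pa_take hT k hk).1) (fun k h1 h2 => (fu_drop hT' k h1 h2).1)
    · have := isO_glue (pa_take hT) (fu_drop hT')
      rwa [hltt] at this
  · rintro ⟨w, T, T'⟩ hp
    simp only [Finset.mem_sigma, Finset.mem_filter, mem_CO] at hp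
    obtain ⟨hw, hT, hT', hlt⟩ := hp
    simp only
    have h1 := lat_le hlt.le hT hT'
    have h2 : inv w = inv ((w.take T').drop T) + inv (w.take T ++ w.drop T') := by
      conv_lhs => rw [seg w T T' hlt.le]
      rw [inv_append, inv_append, inv_append]
      abel
    rw [← h2]
    apply mul_le_mul_of_nonneg_right _ (hg _)
    exact_mod_cast Nat.choose_le_choose r h1
  · intro b _
    exact mul_nonneg (by positivity) (hg _)

/-- harmonic sum -/
def Lh (n : ℕ) : ℝ := ∑ m ∈ Finset.Icc 1 n, 1 / ((m : ℝ) + 1)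

theorem Lh_nonneg (n : ℕ) : 0 ≤ Lh n := Finset.sum_nonneg fun m _ => by positivity

theorem Lh_mono {m n : ℕ} (h : m ≤ n) : Lh m ≤ Lh n := by
  apply Finset.sum_le_sum_of_subset_of_nonneg
  · intro k hk
    rw [Finset.mem_Icc] at hk ⊢
    omega
  · intro k _ _
    positivity

theorem Lh_le (n : ℕ) : Lh n ≤ Real.log ((n : ℝ) + 1) := by
  induction n with
  | zero => simp [Lh]
  | succ n ih =>
    have e : Lh (n + 1) = Lh n + 1 / (((n + 1 : ℕ) : ℝ) + 1) := by
      unfold Lh
      rw [Finset.sum_Icc_succ_top (by omega)]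
    rw [e]
    push_cast
    have h0 : (0 : ℝ) < (n : ℝ) + 1 := by positivity
    have h1 : (0 : ℝ) < (n : ℝ) + 1 + 1 := by positivity
    have h2 := Real.log_le_sub_one_of_pos (div_pos h0 h1)
    rw [Real.log_div h0.ne' h1.ne'] at h2
    have h3 : ((n : ℝ) + 1) / ((n : ℝ) + 1 + 1) - 1 = - (1 / ((n : ℝ) + 1 + 1)) := by
      field_simp
      ring
    rw [h3] at h2
    linarith

/-- distribution of the cone walks according to the number of cut times -/
theorem DcF_le (D k n : ℕ) (hk : 1 ≤ k) (hkn : k ≤ n) (h : (Fin (D + 2) → ℤ) → ℝ)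
    (hh : ∀ z, 0 ≤ h z) :
    ∑ v ∈ DcF D k, h (inv v) ≤
      ∑ m ∈ Finset.Icc 1 n, 1 / ((m : ℝ) + 1) * ∑ V ∈ BF D k m, h (inv V) := by
  have hmaps : ∀ v ∈ DcF D k, (cts v).card - 1 ∈ Finset.Icc 1 n := by
    intro v hv
    obtain ⟨hl, ⟨hS, hP, hF⟩, _, _⟩ := mem_DcF.1 hv
    have h1 : ({0, k} : Finset ℕ) ⊆ cts v := by
      intro j hj
      rw [Finset.mem_insert, Finset.mem_singleton] at hj
      rcases hj with rfl | rfl
      · exact mem_cts.2 (ct_start hF)
      · have := ct_end hP
        rw [hl] at this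
        exact mem_cts.2 this
    have h2 : (cts v).card ≤ k + 1 := by
      calc (cts v).card ≤ (Finset.range (v.length + 1)).card := Finset.card_filter_le _ _
        _ = k + 1 := by rw [Finset.card_range, hl]
    have h3 := Finset.card_le_card h1
    rw [Finset.card_pair (by omega)] at h3
    rw [Finset.mem_Icc]
    omega
  rw [← Finset.sum_fiberwise_of_maps_to hmaps]
  refine Finset.sum_le_sum fun m hm => ?_
  rw [Finset.mem_Icc] at hm
  have e : (DcF D k).filter (fun v => (cts v).card - 1 = m) = DF D k m := by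
    ext v
    rw [Finset.mem_filter, mem_DcF, mem_DF]
    constructor
    · rintro ⟨⟨h1, h2⟩, h3⟩
      exact ⟨h1, h2, by omega⟩
    · rintro ⟨h1, h2, h3⟩
      exact ⟨⟨h1, h2⟩, by omega⟩
  rw [e]
  have h1 := exchange D k m h hh
  have h2 : (0 : ℝ) < (m : ℝ) + 1 := by positivity
  rw [one_div, inv_mul_eq_div, le_div_iff₀ h2]
  linarith

theorem GG_le (D r : ℕ) : ∀ (n : ℕ) (g : (Fin (D + 2) → ℤ) → ℝ), (∀ z, 0 ≤ g z) →
    GG D n r g ≤ Lh n ^ r * ∑ w ∈ S0 D n, g (inv w) := by
  induction r with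
  | zero =>
    intro n g hg
    rw [pow_zero, one_mul]
    exact GG_zero D n g hg
  | succ r ih =>
    intro n g hg
    have hS : ∀ k : ℕ, ∀ z : Fin (D + 2) → ℤ, 0 ≤ ∑ w ∈ S0 D (n - k), g (z + inv w) :=
      fun k z => Finset.sum_nonneg fun w _ => hg _
    calc GG D n (r + 1) g
        ≤ ∑ k ∈ Finset.Icc 1 n, ∑ v ∈ DcF D k, GG D (n - k) r (fun z => g (inv v + z)) :=
          GG_succ D n r g hg
      _ ≤ ∑ k ∈ Finset.Icc 1 n, ∑ v ∈ DcF D k,
            Lh n ^ r * ∑ w ∈ S0 D (n - k), g (inv v + inv w) := by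
          refine Finset.sum_le_sum fun k _ => Finset.sum_le_sum fun v _ => ?_
          refine (ih (n - k) (fun z => g (inv v + z)) (fun z => hg _)).trans ?_
          exact mul_le_mul_of_nonneg_right
            (pow_le_pow_left₀ (Lh_nonneg _) (Lh_mono (Nat.sub_le n k)) r) (hS k (inv v))
      _ = Lh n ^ r * ∑ k ∈ Finset.Icc 1 n, ∑ v ∈ DcF D k,
            ∑ w ∈ S0 D (n - k), g (inv v + inv w) := by
          rw [Finset.mul_sum]
          refine Finset.sum_congr rfl fun k _ => ?_
          rw [Finset.mul_sum]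
      _ ≤ Lh n ^ r * ∑ k ∈ Finset.Icc 1 n, ∑ m ∈ Finset.Icc 1 n, 1 / ((m : ℝ) + 1) *
            ∑ V ∈ BF D k m, ∑ w ∈ S0 D (n - k), g (inv V + inv w) := by
          apply mul_le_mul_of_nonneg_left _ (pow_nonneg (Lh_nonneg n) r)
          refine Finset.sum_le_sum fun k hk => ?_
          rw [Finset.mem_Icc] at hk
          exact DcF_le D k n hk.1 hk.2 (fun z => ∑ w ∈ S0 D (n - k), g (z + inv w)) (hS k)
      _ = Lh n ^ r * ∑ m ∈ Finset.Icc 1 n, 1 / ((m : ℝ) + 1) *
            ∑ k ∈ Finset.Icc 1 n, ∑ V ∈ BF D k m, ∑ w ∈ S0 D (n - k), g (inv V + inv w) := by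
          congr 1
          rw [Finset.sum_comm]
          refine Finset.sum_congr rfl fun m _ => ?_
          rw [Finset.mul_sum]
      _ ≤ Lh n ^ r * ∑ m ∈ Finset.Icc 1 n, 1 / ((m : ℝ) + 1) * ∑ w ∈ S0 D n, g (inv w) := by
          apply mul_le_mul_of_nonneg_left _ (pow_nonneg (Lh_nonneg n) r)
          refine Finset.sum_le_sum fun m _ => ?_
          exact mul_le_mul_of_nonneg_left (insertion D n m g hg) (by positivity)
      _ = Lh n ^ (r + 1) * ∑ w ∈ S0 D n, g (inv w) := by
          rw [← Finset.sum_mul, pow_succ]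
          unfold Lh
          ring

/-- factorial moments of the number of cone points -/
theorem moment (D n r : ℕ) (g : (Fin (D + 2) → ℤ) → ℝ) (hg : ∀ z, 0 ≤ g z) :
    ∑ w ∈ SwF D n, ((CO w).card.choose (r + 1) : ℝ) * g (inv w) ≤
      Real.log ((n : ℝ) + 1) ^ r * ∑ w ∈ SwF D n, g (inv w) := by
  rw [GG_eq]
  refine (GG_le D r n g hg).trans ?_
  apply mul_le_mul
  · exact pow_le_pow_left₀ (Lh_nonneg n) (Lh_le n) r
  · apply Finset.sum_le_sum_of_subset_of_nonneg (Finset.filter_subset _ _)
    intro w _ _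
    exact hg _
  · exact Finset.sum_nonneg fun w _ => hg _
  · exact pow_nonneg ((Lh_nonneg n).trans (Lh_le n)) r

end Pool.Agent.SawCone
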