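import Pool.Agent.SawCone.Open

set_option autoImplicit false

/-!
# MP_b5172a_pr: symmetries of the lattice, cone points in all coordinate directions
-/

open scoped Classical

noncomputable section

namespace Pool.Agent.SawCone

open Pool.Agent.SBW

variable {D : ℕ}

theorem saw_flip (c : Fin (D + 2)) {w : Wk D} (h : Saw w) : Saw (w.map (flipS c)) := by
  intro i hi k hk hp
  rw [List.length_map] at hi hk
  refine h i hi k hk ?_
  intro j
  have := hp j
  rw [pos_map_flip, pos_map_flip] at this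
  by_cases hj : j = c
  · simp only [hj, if_true] at this ⊢
    linarith
  · simpa [hj] using this

theorem F1_flip (w : Wk D) (k : ℕ) : F1 (w.map (flipS 1)) k = F2 w k := by
  unfold F1 F2
  rw [pos_map_flip, pos_map_flip]
  simp
  ring

theorem F2_flip (w : Wk D) (k : ℕ) : F2 (w.map (flipS 1)) k = F1 w k := by
  unfold F1 F2
  rw [pos_map_flip, pos_map_flip]
  simp

theorem CO_flip (w : Wk D) : CO (w.map (flipS 1)) = CO w := by
  ext k
  rw [mem_CO, mem_CO]
  unfold IsO
  simp only [F1_flip, F2_flip, List.length_map]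
  constructor
  · rintro ⟨h1, h2, h3⟩
    exact ⟨h1, fun i hi => ⟨(h2 i hi).2, (h2 i hi).1⟩,
      fun i a b => ⟨(h3 i a b).2, (h3 i a b).1⟩⟩
  · rintro ⟨h1, h2, h3⟩
    exact ⟨h1, fun i hi => ⟨(h2 i hi).2, (h2 i hi).1⟩,
      fun i a b => ⟨(h3 i a b).2, (h3 i a b).1⟩⟩

/-- symmetrization -/
theorem symm_sum (D n : ℕ) (a b : ℝ) (c : Wk D → ℝ) (hc : ∀ w, c (w.map (flipS 1)) = c w) :
    ∑ w ∈ SwF D n, c w * (a + b * ∑ l, (inv w l : ℝ) ^ 2) =
      ∑ w ∈ SwF D n, c w * (a + b * ∑ l, (pos w n l : ℝ) ^ 2) := by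
  have e1 : ∀ w ∈ SwF D n, ∑ l, (inv w l : ℝ) ^ 2 =
      (F1 w n : ℝ) ^ 2 + ∑ l : Fin D, (pos w n l.succ.succ : ℝ) ^ 2 := by
    intro w hw
    rw [Fin.sum_univ_succ, Fin.sum_univ_succ]
    have h0 : inv w 0 = F1 w n := by
      unfold inv
      rw [if_pos rfl, (mem_SwF.1 hw).1]
    have h1 : inv w (Fin.succ 0) = 0 := by
      have h2 : (Fin.succ 0 : Fin (D + 2)) = 1 := rfl
      unfold inv
      rw [if_neg (Fin.succ_ne_zero 0), if_pos h2]
    have h2 : ∀ l : Fin D, inv w l.succ.succ = pos w n l.succ.succ := by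
      intro l
      unfold inv
      rw [if_neg (Fin.succ_ne_zero _), if_neg, (mem_SwF.1 hw).1]
      intro h
      have h3 : l.succ.succ = Fin.succ 0 := h
      exact Fin.succ_ne_zero l (Fin.succ_injective _ h3)
    rw [h0, h1]
    simp only [h2]
    push_cast
    ring
  have e2 : ∀ w : Wk D, ∑ l, (pos w n l : ℝ) ^ 2 =
      ((F1 w n : ℝ) ^ 2 + (F2 w n : ℝ) ^ 2) / 2 + ∑ l : Fin D, (pos w n l.succ.succ : ℝ) ^ 2 := by
    intro w
    rw [Fin.sum_univ_succ, Fin.sum_univ_succ]
    have h1 : (Fin.succ 0 : Fin (D + 2)) = 1 := rfl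
    rw [h1]
    unfold F1 F2
    push_cast
    ring
  have e3 : ∑ w ∈ SwF D n, c w * (F1 w n : ℝ) ^ 2 = ∑ w ∈ SwF D n, c w * (F2 w n : ℝ) ^ 2 := by
    apply Finset.sum_nbij' (fun w => w.map (flipS 1)) (fun w => w.map (flipS 1))
    · intro w hw
      obtain ⟨h1, h2⟩ := mem_SwF.1 hw
      exact mem_SwF.2 ⟨by rw [List.length_map]; exact h1, saw_flip 1 h2⟩
    · intro w hw
      obtain ⟨h1, h2⟩ := mem_SwF.1 hw
      exact mem_SwF.2 ⟨by rw [List.length_map]; exact h1, saw_flip 1 h2⟩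
    · intro w _
      exact map_flip_flip 1 w
    · intro w _
      exact map_flip_flip 1 w
    · intro w _
      rw [hc, F2_flip]
  have e4 : ∑ w ∈ SwF D n, c w * (a + b * ∑ l, (inv w l : ℝ) ^ 2) =
      ∑ w ∈ SwF D n, c w * (a + b * ∑ l : Fin D, (pos w n l.succ.succ : ℝ) ^ 2) +
        b * ∑ w ∈ SwF D n, c w * (F1 w n : ℝ) ^ 2 := by
    rw [Finset.mul_sum, ← Finset.sum_add_distrib]
    refine Finset.sum_congr rfl fun w hw => ?_
    rw [e1 w hw]
    ring
  have e5 : ∑ w ∈ SwF D n, c w * (a + b * ∑ l, (pos w n l : ℝ) ^ 2) =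
      ∑ w ∈ SwF D n, c w * (a + b * ∑ l : Fin D, (pos w n l.succ.succ : ℝ) ^ 2) +
        b * ((∑ w ∈ SwF D n, c w * (F1 w n : ℝ) ^ 2 +
          ∑ w ∈ SwF D n, c w * (F2 w n : ℝ) ^ 2) / 2) := by
    rw [← Finset.sum_add_distrib, Finset.sum_div, Finset.mul_sum, ← Finset.sum_add_distrib]
    refine Finset.sum_congr rfl fun w _ => ?_
    rw [e2 w]
    ring
  rw [e4, e5, ← e3]
  ring

/-- factorial moments, with the squared displacement as weight -/
theorem moment_sq (D n r : ℕ) (a b : ℝ) (ha : 0 ≤ a) (hb : 0 ≤ b) :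
    ∑ w ∈ SwF D n, ((CO w).card.choose (r + 1) : ℝ) * (a + b * ∑ l, (pos w n l : ℝ) ^ 2) ≤
      Real.log ((n : ℝ) + 1) ^ r * ∑ w ∈ SwF D n, (a + b * ∑ l, (pos w n l : ℝ) ^ 2) := by
  have h := moment D n r (fun z => a + b * ∑ l, (z l : ℝ) ^ 2) (fun z => by positivity)
  have e1 := symm_sum D n a b (fun w => ((CO w).card.choose (r + 1) : ℝ))
    (fun w => by rw [CO_flip])
  have e2 := symm_sum D n a b (fun _ => (1 : ℝ)) (fun w => rfl)
  simp only [one_mul] at e2
  rw [← e1, ← e2]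
  exact h

/-- permutation of the coordinates of a step -/
def permS (π : Equiv.Perm (Fin (D + 2))) (s : St D) : St D := (π.symm s.1, s.2)

theorem stv_permS (π : Equiv.Perm (Fin (D + 2))) (l : Fin (D + 2)) (s : St D) :
    stv (permS π s) l = stv s (π l) := by
  obtain ⟨a, b⟩ := s
  unfold permS stv
  have : (π.symm a = l) ↔ (a = π l) := by
    rw [Equiv.symm_apply_eq]
  simp only [this]

theorem pos_map_perm (π : Equiv.Perm (Fin (D + 2))) (l : Fin (D + 2)) (w : Wk D) (k : ℕ) :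
    pos (w.map (permS π)) k l = pos w k (π l) := by
  induction w generalizing k with
  | nil => simp
  | cons s w ih =>
    cases k with
    | zero => simp
    | succ k => rw [List.map_cons, pos_cons_succ, pos_cons_succ, ih, stv_permS]

theorem saw_perm (π : Equiv.Perm (Fin (D + 2))) {w : Wk D} (h : Saw w) :
    Saw (w.map (permS π)) := by
  intro i hi k hk hp
  rw [List.length_map] at hi hk
  refine h i hi k hk ?_
  intro j
  have := hp (π.symm j)
  rwa [pos_map_perm, pos_map_perm, Equiv.apply_symm_apply] at this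

/-- the transformed walk -/
def tr (π : Equiv.Perm (Fin (D + 2))) (b : Bool) (w : Wk D) : Wk D :=
  if b then w.map (permS π) else (w.map (permS π)).map (flipS 0)

theorem length_tr (π : Equiv.Perm (Fin (D + 2))) (b : Bool) (w : Wk D) :
    (tr π b w).length = w.length := by
  unfold tr
  cases b <;> simp

theorem saw_tr (π : Equiv.Perm (Fin (D + 2))) (b : Bool) {w : Wk D} (h : Saw w) :
    Saw (tr π b w) := by
  unfold tr
  cases b
  · simpa using saw_flip 0 (saw_perm π h)
  · simpa using saw_perm π h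

theorem pos_tr (π : Equiv.Perm (Fin (D + 2))) (b : Bool) (w : Wk D) (k : ℕ) (l : Fin (D + 2)) :
    pos (tr π b w) k l = (if l = 0 then sg b else 1) * pos w k (π l) := by
  unfold tr
  cases b
  · simp only [Bool.false_eq_true, if_false, pos_map_flip, pos_map_perm, sg]
    by_cases hl : l = 0 <;> simp [hl]
  · simp only [if_true, pos_map_perm, sg]
    by_cases hl : l = 0 <;> simp [hl]

theorem permS_symm (π : Equiv.Perm (Fin (D + 2))) (w : Wk D) :
    (w.map (permS π)).map (permS π.symm) = w := by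
  rw [List.map_map]
  conv_rhs => rw [← List.map_id w]
  apply List.map_congr_left
  intro s _
  simp [permS]

theorem tr_inj (π : Equiv.Perm (Fin (D + 2))) (b : Bool) : Function.Injective (tr π b) := by
  intro w v h
  have key : w.map (permS π) = v.map (permS π) := by
    unfold tr at h
    cases b
    · simp only [Bool.false_eq_true, if_false] at h
      have := congrArg (List.map (flipS 0)) h
      rwa [map_flip_flip, map_flip_flip] at this
    · simpa using h
  have := congrArg (List.map (permS π.symm)) key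
  rwa [permS_symm, permS_symm] at this

/-- cone point in direction `e • e_i` with second coordinate `j` -/
def IsD (i j : Fin (D + 2)) (e : ℤ) (w : Wk D) (k : ℕ) : Prop :=
  k ≤ w.length ∧ (∀ l ≤ k, |pos w k j - pos w l j| ≤ e * (pos w k i - pos w l i)) ∧
    ∀ l, k < l → l ≤ w.length → |pos w l j - pos w k j| < e * (pos w l i - pos w k i)

theorem abs_le_iff (w : Wk D) (a b : ℕ) :
    |pos w b 1 - pos w a 1| ≤ pos w b 0 - pos w a 0 ↔ F1 w a ≤ F1 w b ∧ F2 w a ≤ F2 w b := by
  rw [abs_le]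
  simp only [F1, F2]
  constructor
  · rintro ⟨h1, h2⟩
    constructor <;> linarith
  · rintro ⟨h1, h2⟩
    constructor <;> linarith

theorem abs_lt_iff (w : Wk D) (a b : ℕ) :
    |pos w b 1 - pos w a 1| < pos w b 0 - pos w a 0 ↔ F1 w a < F1 w b ∧ F2 w a < F2 w b := by
  rw [abs_lt]
  simp only [F1, F2]
  constructor
  · rintro ⟨h1, h2⟩
    constructor <;> linarith
  · rintro ⟨h1, h2⟩
    constructor <;> linarith

theorem isO_iff (w : Wk D) (k : ℕ) : IsO w k ↔ IsD 0 1 1 w k := by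
  unfold IsO IsD
  simp only [one_mul, abs_le_iff, abs_lt_iff]

theorem isD_tr (π : Equiv.Perm (Fin (D + 2))) (b : Bool) (w : Wk D) (k : ℕ) :
    IsO (tr π b w) k ↔ IsD (π 0) (π 1) (sg b) w k := by
  rw [isO_iff]
  unfold IsD
  have e0 : ∀ l, pos (tr π b w) l 0 = sg b * pos w l (π 0) := by
    intro l; rw [pos_tr]; simp
  have e1 : ∀ l, pos (tr π b w) l 1 = pos w l (π 1) := by
    intro l; rw [pos_tr]; simp
  simp only [e0, e1, length_tr, one_mul, mul_sub]

theorem exists_perm (i j : Fin (D + 2)) (h : i ≠ j) :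
    ∃ π : Equiv.Perm (Fin (D + 2)), π 0 = i ∧ π 1 = j := by
  refine ⟨(Equiv.swap 0 i).trans (Equiv.swap (Equiv.swap 0 i 1) j), ?_, ?_⟩
  · rw [Equiv.trans_apply, Equiv.swap_apply_left]
    apply Equiv.swap_apply_of_ne_of_ne _ h
    intro hc
    have h2 : Equiv.swap (0 : Fin (D + 2)) i 0 = Equiv.swap (0 : Fin (D + 2)) i 1 := by
      rw [Equiv.swap_apply_left]; exact hc
    have := (Equiv.swap (0 : Fin (D + 2)) i).injective h2
    simp at this
  · rw [Equiv.trans_apply, Equiv.swap_apply_left]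

/-- cone points in a direction -/
def Cd (i j : Fin (D + 2)) (e : ℤ) (w : Wk D) : Finset ℕ :=
  (Finset.range (w.length + 1)).filter (IsD i j e w)

theorem Cd_tr (π : Equiv.Perm (Fin (D + 2))) (b : Bool) (w : Wk D) :
    Cd (π 0) (π 1) (sg b) w = CO (tr π b w) := by
  unfold Cd CO
  rw [length_tr]
  apply Finset.filter_congr
  intro k _
  exact (isD_tr π b w k).symm

theorem sq_tr (π : Equiv.Perm (Fin (D + 2))) (b : Bool) (w : Wk D) (k : ℕ) :
    ∑ l, (pos (tr π b w) k l : ℝ) ^ 2 = ∑ l, (pos w k l : ℝ) ^ 2 := by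
  rw [← Equiv.sum_comp π (fun l => (pos w k l : ℝ) ^ 2)]
  refine Finset.sum_congr rfl fun l _ => ?_
  rw [pos_tr]
  by_cases hl : l = 0
  · simp only [hl, if_true]
    cases b <;> simp [sg]
  · simp [hl]

/-- factorial moments in every direction -/
theorem moment_dir (D n r : ℕ) (i j : Fin (D + 2)) (hij : i ≠ j) (e : ℤ) (he : e = 1 ∨ e = -1)
    (a b : ℝ) (ha : 0 ≤ a) (hb : 0 ≤ b) :
    ∑ w ∈ SwF D n, ((Cd i j e w).card.choose (r + 1) : ℝ) *
        (a + b * ∑ l, (pos w n l : ℝ) ^ 2) ≤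
      Real.log ((n : ℝ) + 1) ^ r * ∑ w ∈ SwF D n, (a + b * ∑ l, (pos w n l : ℝ) ^ 2) := by
  obtain ⟨π, rfl, rfl⟩ := exists_perm i j hij
  obtain ⟨s, rfl⟩ : ∃ s : Bool, e = sg s := by
    rcases he with rfl | rfl
    · exact ⟨true, by simp [sg]⟩
    · exact ⟨false, by simp [sg]⟩
  refine le_trans ?_ (moment_sq D n r a b ha hb)
  apply sum_inj _ _ (tr π s)
  · exact (tr_inj π s).injOn
  · intro w hw
    obtain ⟨hl, hs⟩ := mem_SwF.1 hw
    exact mem_SwF.2 ⟨by rw [length_tr]; exact hl, saw_tr π s hs⟩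
  · intro w _
    rw [Cd_tr, sq_tr]
  · intro w _
    positivity

end Pool.Agent.SawCone
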