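import Pool.Agent.SawCone.Sym
import Pool.Agent.SBW.CONV

set_option autoImplicit false

/-!
# MP_b5172a_pr: cone points, walks as functions
-/

noncomputable section

namespace Pool.Agent.SawCone

/-- The `n`-step self-avoiding walks on `ℤ^(D+2)` started at the origin. -/
def Walks (D n : ℕ) : Set (Fin (n + 1) → Fin (D + 2) → ℤ) :=
  {γ | γ 0 = 0 ∧ Function.Injective γ ∧
    ∀ k : Fin n, ∑ i : Fin (D + 2), |γ k.succ i - γ k.castSucc i| = 1}

/-- The connective constant of `ℤ^(D+2)`: the infimum (and limit) of `c_n ^ (1 / n)`, `n ≥ 1`,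
where `c_n` is the number of `n`-step self-avoiding walks. -/
def conn (D : ℕ) : ℝ := ⨅ n : ℕ, ((Walks D (n + 1)).ncard : ℝ) ^ (1 / ((n : ℝ) + 1))

/-- `k` is a cone point of `γ` in the direction `e • e_i` with respect to the coordinate `j`: with
the right-angled cone `C = {x : |x_j| ≤ e x_i}`, the past of `γ` lies in `γ(k) - C` and the future
lies in the interior `γ(k) + {x : |x_j| < e x_i}`. -/
def ConePoint {D n : ℕ} (i j : Fin (D + 2)) (e : ℤ) (γ : Fin (n + 1) → Fin (D + 2) → ℤ)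
    (k : Fin (n + 1)) : Prop :=
  (∀ l, l ≤ k → |γ k j - γ l j| ≤ e * (γ k i - γ l i)) ∧
    ∀ l, k < l → |γ l j - γ k j| < e * (γ l i - γ k i)

/-- The number of cone points in the direction `e • e_i` with respect to the coordinate `j`. -/
def numCone {D n : ℕ} (i j : Fin (D + 2)) (e : ℤ) (γ : Fin (n + 1) → Fin (D + 2) → ℤ) : ℕ :=
  {k | ConePoint i j e γ k}.ncard

/-- `γ` is a cone walk: it lies in `C` and in `γ(n) - C`, where `C = {x : |x_1| ≤ x_0}`. -/
def ConeWalk {D n : ℕ} (γ : Fin (n + 1) → Fin (D + 2) → ℤ) : Prop :=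
  ∀ l, |γ l 1| ≤ γ l 0 ∧ |γ (Fin.last n) 1 - γ l 1| ≤ γ (Fin.last n) 0 - γ l 0

open Pool.Agent.SBW Pool.Agent.SBW.CONV_
open scoped Classical

variable {D : ℕ}

theorem walks_eq (D n : ℕ) : Walks D n = Phi n '' (SwF D n : Set (Wk D)) := (image_eq n).symm

theorem ncard_walks (D n : ℕ) : (Walks D n).ncard = (SwF D n).card := by
  rw [walks_eq, Set.InjOn.ncard_image (Phi_injOn n), Set.ncard_coe_finset]

theorem conn_eq (D : ℕ) : conn D = mu D := by
  unfold conn mu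
  simp only [ncard_walks]

theorem sep_eq (D n : ℕ) (P : (Fin (n + 1) → Fin (D + 2) → ℤ) → Prop) :
    {γ | γ ∈ Walks D n ∧ P γ} =
      Phi n '' (((SwF D n).filter (fun w => P (Phi n w)) : Finset (Wk D)) : Set (Wk D)) := by
  rw [walks_eq]
  ext γ
  simp only [Set.mem_ofPred_eq, Set.mem_image, Finset.coe_filter, Finset.mem_coe]
  constructor
  · rintro ⟨⟨w, hw, rfl⟩, h⟩
    exact ⟨w, ⟨hw, h⟩, rfl⟩
  · rintro ⟨w, ⟨hw, h⟩, rfl⟩
    exact ⟨⟨w, hw, rfl⟩, h⟩

theorem injOn_sub (n : ℕ) (P : Wk D → Prop) :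
    Set.InjOn (Phi (D := D) n) (((SwF D n).filter P : Finset (Wk D)) : Set (Wk D)) :=
  (Phi_injOn n).mono (fun w hw => Finset.mem_coe.2
    (Finset.mem_of_mem_filter w (Finset.mem_coe.1 hw)))

theorem conePoint_iff {n : ℕ} {w : Wk D} (hw : w.length = n) (i j : Fin (D + 2)) (e : ℤ)
    (k : Fin (n + 1)) : ConePoint i j e (Phi n w) k ↔ IsD i j e w k := by
  unfold ConePoint IsD
  simp only [Phi]
  rw [hw]
  constructor
  · rintro ⟨h1, h2⟩
    refine ⟨by have := k.2; omega, ?_, ?_⟩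
    · intro l hl
      exact h1 ⟨l, by have := k.2; omega⟩ (by rw [Fin.le_def]; exact hl)
    · intro l h3 h4
      exact h2 ⟨l, by omega⟩ (by rw [Fin.lt_def]; exact h3)
  · rintro ⟨_, h1, h2⟩
    refine ⟨?_, ?_⟩
    · intro l hl
      rw [Fin.le_def] at hl
      exact h1 l hl
    · intro l hl
      rw [Fin.lt_def] at hl
      exact h2 l hl (by have := l.2; omega)

theorem numCone_eq {n : ℕ} {w : Wk D} (hw : w.length = n) (i j : Fin (D + 2)) (e : ℤ) :
    numCone i j e (Phi n w) = (Cd i j e w).card := by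
  unfold numCone
  rw [← Set.ncard_coe_finset (Cd i j e w)]
  rw [← Set.ncard_image_of_injective _ (Fin.val_injective (n := n + 1))]
  congr 1
  ext k
  simp only [Set.mem_image, Set.mem_ofPred_eq, Finset.mem_coe, Cd, Finset.mem_filter,
    Finset.mem_range]
  constructor
  · rintro ⟨k', h, rfl⟩
    exact ⟨by rw [hw]; exact k'.2, (conePoint_iff hw i j e k').1 h⟩
  · rintro ⟨hk, h⟩
    exact ⟨⟨k, by omega⟩, (conePoint_iff hw i j e ⟨k, by omega⟩).2 h, rfl⟩

theorem coneWalk_iff {n : ℕ} {w : Wk D} (hw : w ∈ SwF D n) :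
    ConeWalk (Phi n w) ↔ w ∈ CcF D n := by
  obtain ⟨hl, hs⟩ := mem_SwF.1 hw
  rw [mem_CcF]
  unfold ConeWalk Cc
  simp only [Phi, Fin.val_last]
  constructor
  · intro h
    refine ⟨hl, hs, ?_⟩
    intro k hk
    rw [hl] at hk ⊢
    have h1 := h ⟨k, by omega⟩
    simp only at h1
    have h2 := (abs_le_iff w 0 k).1 (by simpa using h1.1)
    have h3 := (abs_le_iff w k n).1 h1.2
    rw [F1_zero, F2_zero] at h2
    exact ⟨⟨h2.1, h3.1⟩, h2.2, h3.2⟩
  · rintro ⟨_, _, h⟩ i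
    have h1 := h i (by have := i.2; omega)
    rw [hl] at h1
    refine ⟨?_, (abs_le_iff w i n).2 ⟨h1.1.2, h1.2.2⟩⟩
    have := (abs_le_iff w 0 i).2 (by rw [F1_zero, F2_zero]; exact ⟨h1.1.1, h1.2.1⟩)
    simpa using this

theorem ncard_coneWalk (D n : ℕ) :
    {γ | γ ∈ Walks D n ∧ ConeWalk γ}.ncard = (CcF D n).card := by
  rw [sep_eq, Set.InjOn.ncard_image (injOn_sub n _), Set.ncard_coe_finset]
  congr 1
  ext w
  rw [Finset.mem_filter]
  constructor
  · rintro ⟨h1, h2⟩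
    exact (coneWalk_iff h1).1 h2
  · intro h
    have h1 : w ∈ SwF D n := by
      have := mem_CcF.1 h
      exact mem_SwF.2 ⟨this.1, this.2.1⟩
    exact ⟨h1, (coneWalk_iff h1).2 h⟩

theorem finsum_moment (D n r : ℕ) (i j : Fin (D + 2)) (e : ℤ) (a b : ℝ) :
    (∑ᶠ γ ∈ Walks D n, ((numCone i j e γ).choose (r + 1) : ℝ) *
      (a + b * ∑ l, ((γ (Fin.last n) l : ℤ) : ℝ) ^ 2)) =
    ∑ w ∈ SwF D n, ((Cd i j e w).card.choose (r + 1) : ℝ) *
      (a + b * ∑ l, (pos w n l : ℝ) ^ 2) := by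
  rw [walks_eq, finsum_mem_image (Phi_injOn n), finsum_mem_coe_finset]
  refine Finset.sum_congr rfl fun w hw => ?_
  rw [numCone_eq (mem_SwF.1 hw).1]
  simp only [Phi, Fin.val_last]

theorem finsum_weight (D n : ℕ) (a b : ℝ) :
    (∑ᶠ γ ∈ Walks D n, (a + b * ∑ l, ((γ (Fin.last n) l : ℤ) : ℝ) ^ 2)) =
    ∑ w ∈ SwF D n, (a + b * ∑ l, (pos w n l : ℝ) ^ 2) := by
  rw [walks_eq, finsum_mem_image (Phi_injOn n), finsum_mem_coe_finset]
  refine Finset.sum_congr rfl fun w _ => ?_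
  simp only [Phi, Fin.val_last]

end Pool.Agent.SawCone
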